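import Pool.Agent.K3h46.TMC.Asm

set_option autoImplicit false
set_option linter.unusedSectionVars false

/-!
All exponents, and tubes near a curve.
-/

open MeasureTheory Set Filter Topology ENNReal NNReal Metric

namespace Pool.Agent.K3h46.TMC

open Pool.Agent.H742R2.Kk
open Pool.Agent.W767.Kc

/-- All exponents `q > 1 + 1/d`, for `d ≥ 2`. -/
theorem all_q (d : ℕ) (hd : 2 ≤ d) {q : ℝ} (hq : 1 + 1 / (d:ℝ) < q) {K R : ℝ}
    (hK : 0 < K) (hR : 0 < R) : ∃ C : ℝ, 0 < C ∧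
    ∀ (N : ℕ) (γ : ℝ → E (d + 1)), Continuous γ → OrderLE N γ →
    ∀ (δ : ℝ), 0 < δ → δ ≤ 1 →
    ∀ (ι : Type) [Fintype ι] [Nonempty ι] (e : ι → E (d + 1)) (t : ι → ℝ), (∀ i, ‖e i‖ = 1) →
    (∀ i j, i ≠ j → δ ≤ ‖e i - e j‖) →
    ∫⁻ y, Fs (K * δ) (Icc (-R) R) e (fun i => γ (t i)) y ^ q ≤
      ENNReal.ofReal (C * ((N + 1 : ℝ) ^ (min 1 (q - 1)) *
        (δ ^ d * (Fintype.card ι : ℝ) ^ (q - 1 / d)))) := by
  rcases le_or_gt q 2 with hq2 | hq2
  · obtain ⟨C, hC, h⟩ := main_q d (by omega) hq hq2 hK hR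
    refine ⟨C, hC, ?_⟩
    have : min 1 (q - 1) = q - 1 := min_eq_right (by linarith)
    rw [this]
    exact h
  · have hd2 : (2:ℝ) ≤ d := by exact_mod_cast hd
    have hdi : 1 / (d:ℝ) < 1 := by
      rw [div_lt_one (by linarith)]; linarith
    obtain ⟨C, hC, h⟩ := main_q d (by omega) (q := 2) (by linarith) le_rfl hK hR
    refine ⟨C, hC, ?_⟩
    intro N γ hγ hN δ hδ hδ1 ι _ _ e t he hsep
    have hM0 : 0 < (Fintype.card ι : ℝ) := by exact_mod_cast Fintype.card_pos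
    set M : ℝ := (Fintype.card ι : ℝ) with hM
    have h1 := h N γ hγ hN δ hδ hδ1 ι e t he hsep
    set F : E (d + 1) → ℝ≥0∞ := Fs (K * δ) (Icc (-R) R) e (fun i => γ (t i)) with hF
    have h2 : ∀ y, F y ^ q ≤ ENNReal.ofReal (M ^ (q - 2)) * F y ^ (2:ℝ) := by
      intro y
      have h3 : F y ≤ ENNReal.ofReal M := by
        have := Fs_le (K * δ) (Icc (-R) R) e (fun i => γ (t i)) y
        rw [hM, ENNReal.ofReal_natCast]
        exact this
      have e1 : q = (q - 2) + 2 := by ring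
      conv_lhs => rw [e1]
      rw [ENNReal.rpow_add_of_nonneg _ _ (by linarith) (by norm_num),
        ← ENNReal.ofReal_rpow_of_nonneg hM0.le (by linarith)]
      gcongr
    have hmin : min 1 (q - 1) = 1 := min_eq_left (by linarith)
    calc ∫⁻ y, F y ^ q ≤ ∫⁻ y, ENNReal.ofReal (M ^ (q - 2)) * F y ^ (2:ℝ) := lintegral_mono h2
      _ = ENNReal.ofReal (M ^ (q - 2)) * ∫⁻ y, F y ^ (2:ℝ) :=
          lintegral_const_mul' _ _ ENNReal.ofReal_ne_top
      _ ≤ ENNReal.ofReal (M ^ (q - 2)) * ENNReal.ofReal (C * ((N + 1 : ℝ) ^ ((2:ℝ) - 1) *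
        (δ ^ d * M ^ ((2:ℝ) - 1 / d)))) := by gcongr
      _ = _ := by
          rw [← ENNReal.ofReal_mul (by positivity), hmin]
          congr 1
          have e1 : M ^ (q - 1 / d) = M ^ (q - 2) * M ^ ((2:ℝ) - 1 / d) := by
            rw [← Real.rpow_add hM0]
            congr 1
            ring
          have e2 : (2:ℝ) - 1 = 1 := by norm_num
          rw [e1, e2]
          ring

theorem norm_perp_le {n : ℕ} {e : E n} (he : ‖e‖ = 1) (w : E n) :
    ‖w - (inner ℝ w e : ℝ) • e‖ ≤ ‖w‖ := by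
  have h1 : ‖w - (inner ℝ w e : ℝ) • e‖ ^ 2 ≤ ‖w‖ ^ 2 := by
    rw [norm_sub_sq_real, inner_smul_right, norm_smul, he, mul_one, Real.norm_eq_abs, sq_abs]
    nlinarith [sq_nonneg (inner ℝ w e : ℝ)]
  exact le_of_sq_le_sq h1 (norm_nonneg _)

/-- A tube near a point `p` lies in a cylinder around `p`. -/
theorem tube_sub_cyl {n : ℕ} {δ K R s : ℝ} (hδ : 0 ≤ δ) (hδ1 : δ ≤ 1) (hK : 0 ≤ K) (hs : |s| ≤ R)
    {e a p : E n} (he : ‖e‖ = 1) (hp : ‖a + s • e - p‖ ≤ K * δ) :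
    tube δ e a ⊆ cyl ((K + 1) * δ) (Icc (-(R + K + 1)) (R + K + 1)) e p := by
  rintro y ⟨h1, h2⟩
  set w : E n := a + s • e - p with hw
  have e1 : y - p = (y - a) - s • e + w := by rw [hw]; abel
  have e2 : (inner ℝ (y - p) e : ℝ) = inner ℝ (y - a) e - s + inner ℝ w e := by
    rw [e1, inner_add_left, inner_sub_left, inner_smul_left, real_inner_self_eq_norm_sq, he]
    simp
  have e3 : (y - p) - (inner ℝ (y - p) e : ℝ) • e
      = ((y - a) - (inner ℝ (y - a) e : ℝ) • e) + (w - (inner ℝ w e : ℝ) • e) := by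
    rw [e2, e1, add_smul, sub_smul]
    abel
  have h3 : |(inner ℝ w e : ℝ)| ≤ K := by
    refine (abs_real_inner_le_norm _ _).trans ?_
    rw [he, mul_one]
    exact hp.trans (mul_le_of_le_one_right hK hδ1)
  refine ⟨?_, ?_⟩
  · rw [e2, mem_Icc, ← abs_le]
    have h4 := abs_le.1 h1
    have h5 := abs_le.1 hs
    have h6 := abs_le.1 h3
    rw [abs_le]
    constructor <;> linarith [h4.1, h4.2, h5.1, h5.2, h6.1, h6.2]
  · rw [e3]
    refine (norm_add_le _ _).trans ?_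
    have := (norm_perp_le he w).trans hp
    linarith

/-- The final estimate. -/
theorem final (d : ℕ) (hd : 2 ≤ d) {q : ℝ} (hq : 1 + 1 / (d:ℝ) < q) {K R : ℝ}
    (hK : 0 ≤ K) (hR : 0 ≤ R) : ∃ C : ℝ, 0 < C ∧
    ∀ (N : ℕ) (γ : ℝ → E (d + 1)), Continuous γ → OrderLE N γ →
    ∀ (δ : ℝ), 0 < δ → δ < 1 →
    ∀ (ι : Type) [Fintype ι] (e a : ι → E (d + 1)), (∀ i, ‖e i‖ = 1) →
    (∀ i j, i ≠ j → δ ≤ ‖e i - e j‖) →
    (∀ i, ∃ s t : ℝ, |s| ≤ R ∧ ‖a i + s • e i - γ t‖ ≤ K * δ) →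
    eLpNorm (fun y => ∑ i, (tube δ (e i) (a i)).indicator (fun _ => (1:ℝ)) y) (ENNReal.ofReal q)
        volume ≤
      ENNReal.ofReal (C * (N + 1 : ℝ) ^ (min (1 / q) (1 - 1 / q)) * δ ^ ((d:ℝ) / q)
        * (Fintype.card ι : ℝ) ^ (1 - 1 / (q * d))) := by
  have hd0 : (0:ℝ) < d := by
    have : 0 < d := by omega
    exact_mod_cast this
  have hdi : 0 < 1 / (d:ℝ) := by positivity
  have hq1 : 1 < q := by linarith
  have hq0 : 0 < q := by linarith
  obtain ⟨C, hC, h⟩ := all_q d hd hq (K := K + 1) (R := R + K + 1) (by linarith) (by linarith)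
  refine ⟨C ^ (1 / q), by positivity, ?_⟩
  intro N γ hγ hN δ hδ hδ1 ι _ e a he hsep hcl
  rcases isEmpty_or_nonempty ι with hι | hι
  · have h0 : (fun y : E (d + 1) => ∑ i, (tube δ (e i) (a i)).indicator (fun _ => (1:ℝ)) y)
        = fun _ => 0 := by
      funext y
      simp
    rw [h0]
    simp
  choose s t hs hst using hcl
  have hM0 : 0 < (Fintype.card ι : ℝ) := by exact_mod_cast Fintype.card_pos
  set M : ℝ := (Fintype.card ι : ℝ) with hM
  have h1 := h N γ hγ hN δ hδ hδ1.le ι e t he hsep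
  set F : E (d + 1) → ℝ≥0∞ := Fs ((K + 1) * δ) (Icc (-(R + K + 1)) (R + K + 1)) e
    (fun i => γ (t i)) with hF
  have hpt : ∀ y, ‖∑ i, (tube δ (e i) (a i)).indicator (fun _ => (1:ℝ)) y‖ₑ ≤ F y := by
    intro y
    calc ‖∑ i, (tube δ (e i) (a i)).indicator (fun _ => (1:ℝ)) y‖ₑ
        ≤ ∑ i, ‖(tube δ (e i) (a i)).indicator (fun _ => (1:ℝ)) y‖ₑ := enorm_sum_le _ _
      _ ≤ F y := by
          rw [hF, Fs]
          apply Finset.sum_le_sum
          intro i _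
          by_cases hy : y ∈ tube δ (e i) (a i)
          · rw [indicator_of_mem hy, indicator_of_mem
              (tube_sub_cyl hδ.le hδ1.le hK (hs i) (he i) (hst i) hy)]
            simp
          · rw [indicator_of_notMem hy]
            simp
  have hq0' : ENNReal.ofReal q ≠ 0 := by simpa using hq0
  rw [eLpNorm_eq_lintegral_rpow_enorm_toReal hq0' ENNReal.ofReal_ne_top,
    ENNReal.toReal_ofReal hq0.le]
  have h2 : ∫⁻ y, ‖∑ i, (tube δ (e i) (a i)).indicator (fun _ => (1:ℝ)) y‖ₑ ^ q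
      ≤ ENNReal.ofReal (C * ((N + 1 : ℝ) ^ (min 1 (q - 1)) *
        (δ ^ d * M ^ (q - 1 / d)))) :=
    (lintegral_mono (fun y => ENNReal.rpow_le_rpow (hpt y) hq0.le)).trans h1
  refine (ENNReal.rpow_le_rpow h2 (by positivity)).trans (le_of_eq ?_)
  rw [ENNReal.ofReal_rpow_of_nonneg (by positivity) (by positivity)]
  congr 1
  rw [Real.mul_rpow hC.le (by positivity), Real.mul_rpow (by positivity) (by positivity),
    Real.mul_rpow (by positivity) (by positivity), ← Real.rpow_mul (by positivity),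
    ← Real.rpow_mul hM0.le, ← Real.rpow_natCast, ← Real.rpow_mul hδ.le]
  have e1 : min 1 (q - 1) * (1 / q) = min (1 / q) (1 - 1 / q) := by
    rw [min_mul_of_nonneg _ _ (by positivity : (0:ℝ) ≤ 1 / q)]
    congr 1
    · ring
    · field_simp
  have e2 : (d:ℝ) * (1 / q) = d / q := by ring
  have e3 : (q - 1 / (d:ℝ)) * (1 / q) = 1 - 1 / (q * d) := by
    field_simp
  rw [e1, e2, e3]
  ring

end Pool.Agent.K3h46.TMC
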