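import Pool.Agent.K3h46.TMC.L2
import Pool.Agent.H810R3.Tub.Lp

set_option autoImplicit false
set_option linter.unusedSectionVars false

/-!
Summation over the scales.
-/

open MeasureTheory Set Filter Topology ENNReal NNReal Metric

namespace Pool.Agent.K3h46.TMC

open Pool.Agent.H742R2.Kk
open Pool.Agent.W767.Kc

/-- The estimate in `L^q` at scale `l`. -/
theorem scale_q (d : ℕ) (hd : 1 ≤ d) {q θ : ℝ} (hq : 1 < q) (hq2 : q ≤ 2) (hθ : 1 / 2 < θ)
    (hθ1 : θ < 1) : ∃ C : ℝ, 0 < C ∧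
    ∀ (N : ℕ) (γ : ℝ → E (d + 1)), Continuous γ → OrderLE N γ →
    ∀ (δ ρ l B : ℝ), 0 < δ → δ ≤ 1 → 0 < ρ → ρ ≤ l → (δ + ρ / l) / δ ≤ B →
    ∀ (ι : Type) [Fintype ι] [Nonempty ι] (e : ι → E (d + 1)) (t : ι → ℝ), (∀ i, ‖e i‖ = 1) →
    (∀ i j, i ≠ j → δ ≤ ‖e i - e j‖) →
    ∫⁻ y, Fs ρ (shell l) e (fun i => γ (t i)) y ^ q ≤
      ENNReal.ofReal (C * (N + 1 : ℝ) ^ (q - 1) * (B ^ (d * ((2 - 2 * θ) * (q - 1)))
        * (Fintype.card ι : ℝ) ^ (2 - q + 2 * θ * (q - 1))) * (l * ρ ^ d)) := by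
  obtain ⟨C, hC, hB⟩ := stepB d hd hθ hθ1
  refine ⟨(4 * 2 ^ d) ^ (2 - q) * C ^ (q - 1), by positivity, ?_⟩
  intro N γ hγ hN δ ρ l B hδ hδ1 hρ hl hBd ι _ _ e t he hsep
  have hl0 : 0 < l := by linarith
  have hB1 : 1 ≤ B := by
    refine le_trans ?_ hBd
    rw [le_div_iff₀ hδ, one_mul]
    have : 0 ≤ ρ / l := by positivity
    linarith
  have hM0 : 0 < (Fintype.card ι : ℝ) := by exact_mod_cast Fintype.card_pos
  set M : ℝ := (Fintype.card ι : ℝ) with hM
  set F : E (d + 1) → ℝ≥0∞ := Fs ρ (shell l) e (fun i => γ (t i)) with hF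
  have hFm : Measurable F := measurable_Fs ρ (measurableSet_shell l) _ _
  have h1 := Pool.Agent.H810R3.Tub.interp (μ := volume) hFm (p := q) (q := 2) (by norm_num)
    hq.le hq2
  have e1 : 1 - (q - 1) / ((2:ℝ) - 1) = 2 - q := by ring
  have e2 : (q - 1) / ((2:ℝ) - 1) = q - 1 := by ring
  rw [e1, e2] at h1
  simp_rw [ENNReal.rpow_two] at h1
  have h2 := lintegral_Fs_le (p := fun i => γ (t i)) hρ (by positivity : 0 < 2 * l)
      (measurableSet_shell l) shell_sub_Icc he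
  have h3 := hB N γ hγ hN δ ρ l B hδ hδ1 hρ hl hBd ι e t he hsep
  have e3 : (Fintype.card ι : ℝ) * (2 * (2 * l) * (2 * ρ) ^ d) = (4 * 2 ^ d) * (M * (l * ρ ^ d)) := by
    rw [mul_pow]; ring
  rw [e3] at h2
  have hlρ : 0 < l * ρ ^ d := by positivity
  calc ∫⁻ y, F y ^ q ≤ (∫⁻ y, F y) ^ (2 - q) * (∫⁻ y, F y ^ 2) ^ (q - 1) := h1
    _ ≤ (ENNReal.ofReal ((4 * 2 ^ d) * (M * (l * ρ ^ d)))) ^ (2 - q) *
        (ENNReal.ofReal (C * (N + 1) * ((B ^ d) ^ (2 - 2 * θ) * M ^ (2 * θ))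
        * (l * ρ ^ d))) ^ (q - 1) :=
        mul_le_mul' (ENNReal.rpow_le_rpow h2 (by linarith)) (ENNReal.rpow_le_rpow h3 (by linarith))
    _ = ENNReal.ofReal (((4 * 2 ^ d) * (M * (l * ρ ^ d))) ^ (2 - q) *
        (C * (N + 1) * ((B ^ d) ^ (2 - 2 * θ) * M ^ (2 * θ)) * (l * ρ ^ d)) ^ (q - 1)) := by
        rw [ENNReal.ofReal_rpow_of_nonneg (by positivity) (by linarith),
          ENNReal.ofReal_rpow_of_nonneg (by positivity) (by linarith),
          ← ENNReal.ofReal_mul (by positivity)]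
    _ = _ := by
        congr 1
        have hq1 : 0 < q - 1 := by linarith
        have g1 : ((4 * 2 ^ d) * (M * (l * ρ ^ d))) ^ (2 - q)
            = (4 * 2 ^ d) ^ (2 - q) * (M ^ (2 - q) * (l * ρ ^ d) ^ (2 - q)) := by
          rw [Real.mul_rpow (by positivity) (by positivity), Real.mul_rpow hM0.le hlρ.le]
        have g2 : (C * (N + 1) * ((B ^ d) ^ (2 - 2 * θ) * M ^ (2 * θ)) * (l * ρ ^ d)) ^ (q - 1)
            = C ^ (q - 1) * (N + 1 : ℝ) ^ (q - 1) * (((B ^ d) ^ (2 - 2 * θ)) ^ (q - 1)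
              * (M ^ (2 * θ)) ^ (q - 1)) * (l * ρ ^ d) ^ (q - 1) := by
          rw [Real.mul_rpow (x := C * (N + 1) * ((B ^ d) ^ (2 - 2 * θ) * M ^ (2 * θ)))
              (by positivity) hlρ.le,
            Real.mul_rpow (x := C * (N + 1)) (by positivity) (by positivity),
            Real.mul_rpow (x := C) hC.le (by positivity),
            Real.mul_rpow (x := (B ^ d) ^ (2 - 2 * θ)) (by positivity) (by positivity)]
        rw [g1, g2]
        have e4 : ((B ^ d) ^ (2 - 2 * θ)) ^ (q - 1) = B ^ (d * ((2 - 2 * θ) * (q - 1))) := by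
          rw [← Real.rpow_natCast, ← Real.rpow_mul (by positivity), ← Real.rpow_mul (by positivity)]
        have e5 : (M ^ (2 * θ)) ^ (q - 1) = M ^ (2 * θ * (q - 1)) :=
          (Real.rpow_mul hM0.le _ _).symm
        have e6 : M ^ (2 - q + 2 * θ * (q - 1)) = M ^ (2 - q) * M ^ (2 * θ * (q - 1)) :=
          Real.rpow_add hM0 _ _
        have e7 : l * ρ ^ d = (l * ρ ^ d) ^ (2 - q) * (l * ρ ^ d) ^ (q - 1) := by
          rw [← Real.rpow_add hlρ]
          have : 2 - q + (q - 1) = 1 := by ring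
          rw [this, Real.rpow_one]
        rw [e4, e5, e6]
        conv_rhs => rw [e7]
        ring

/-- Minkowski's inequality for finite sums. -/
theorem minkowski {α κ : Type} [MeasurableSpace α] {μ : Measure α} {q : ℝ} (hq : 1 ≤ q)
    (s : Finset κ) (G : κ → α → ℝ≥0∞) (hG : ∀ k, Measurable (G k)) :
    (∫⁻ a, (∑ k ∈ s, G k a) ^ q ∂μ) ^ (1 / q) ≤ ∑ k ∈ s, (∫⁻ a, G k a ^ q ∂μ) ^ (1 / q) := by
  classical
  have hq0 : 0 < q := by linarith
  induction s using Finset.induction_on with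
  | empty =>
    simp only [Finset.sum_empty]
    rw [ENNReal.zero_rpow_of_pos hq0]
    simp [hq0]
  | insert a s ha ih =>
    rw [Finset.sum_insert ha]
    simp_rw [Finset.sum_insert ha]
    have h1 := ENNReal.lintegral_Lp_add_le (μ := μ) (hG a).aemeasurable
      (Finset.measurable_fun_sum s (fun k _ => hG k)).aemeasurable hq
    exact h1.trans (add_le_add le_rfl ih)

theorem pointwise {n : ℕ} {ι : Type} [Fintype ι] {ρ R r : ℝ} (hr : 0 < r) {J : ℕ}
    (hJ : R < 2 ^ J * r) (e p : ι → E n) (y : E n) :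
    Fs ρ (Icc (-R) R) e p y ≤ Fs ρ (Icc (-r) r) e p y
      + ∑ j ∈ (Finset.range J).filter (fun j => (2:ℝ) ^ j * r ≤ R), Fs ρ (shell (2 ^ j * r)) e p y := by
  unfold Fs
  rw [Finset.sum_comm, ← Finset.sum_add_distrib]
  apply Finset.sum_le_sum
  intro i _
  by_cases h : y ∈ cyl ρ (Icc (-R) R) (e i) (p i)
  swap
  · rw [indicator_of_notMem h]; exact zero_le
  rw [indicator_of_mem h]
  obtain ⟨h1, h2⟩ := h
  set s : ℝ := inner ℝ (y - p i) (e i) with hs
  by_cases h3 : |s| ≤ r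
  · have h4 : y ∈ cyl ρ (Icc (-r) r) (e i) (p i) := ⟨abs_le.1 h3, h2⟩
    rw [indicator_of_mem h4]
    exact le_self_add
  · push Not at h3
    obtain ⟨j, h4, h5⟩ := exists_nat_pow_near (x := |s| / r) (y := 2)
      (by rw [le_div_iff₀ hr]; linarith) (by norm_num)
    rw [le_div_iff₀ hr] at h4
    rw [div_lt_iff₀ hr] at h5
    have hR : |s| ≤ R := abs_le.2 h1
    have hjS : j ∈ (Finset.range J).filter (fun j => (2:ℝ) ^ j * r ≤ R) := by
      rw [Finset.mem_filter, Finset.mem_range]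
      refine ⟨?_, h4.trans hR⟩
      have h6 : (2:ℝ) ^ j * r < 2 ^ J * r := (h4.trans hR).trans_lt hJ
      have h7 : (2:ℝ) ^ j < 2 ^ J := lt_of_mul_lt_mul_right h6 hr.le
      exact (pow_lt_pow_iff_right₀ (by norm_num)).1 h7
    have h6 : y ∈ cyl ρ (shell (2 ^ j * r)) (e i) (p i) :=
      ⟨⟨h4, by rw [pow_succ] at h5; linarith⟩, h2⟩
    refine le_trans ?_ le_add_self
    refine le_trans ?_ (Finset.single_le_sum (f := fun j =>
      (cyl ρ (shell (2 ^ j * r)) (e i) (p i)).indicator (fun _ => (1:ℝ≥0∞)) y)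
      (fun _ _ => zero_le) hjS)
    rw [indicator_of_mem h6]

/-- The `L^q` norm, `1 + 1/d < q ≤ 2`, of the sum over tubes centred at points of the curve. -/
theorem main_q (d : ℕ) (hd : 1 ≤ d) {q : ℝ} (hq : 1 + 1 / (d:ℝ) < q) (hq2 : q ≤ 2) {K R : ℝ}
    (hK : 0 < K) (hR : 0 < R) : ∃ C : ℝ, 0 < C ∧
    ∀ (N : ℕ) (γ : ℝ → E (d + 1)), Continuous γ → OrderLE N γ →
    ∀ (δ : ℝ), 0 < δ → δ ≤ 1 →
    ∀ (ι : Type) [Fintype ι] [Nonempty ι] (e : ι → E (d + 1)) (t : ι → ℝ), (∀ i, ‖e i‖ = 1) →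
    (∀ i j, i ≠ j → δ ≤ ‖e i - e j‖) →
    ∫⁻ y, Fs (K * δ) (Icc (-R) R) e (fun i => γ (t i)) y ^ q ≤
      ENNReal.ofReal (C * ((N + 1 : ℝ) ^ (q - 1) *
        (δ ^ d * (Fintype.card ι : ℝ) ^ (q - 1 / d)))) := by
  have hd0 : (0:ℝ) < d := by exact_mod_cast hd
  have hdi : 0 < 1 / (d:ℝ) := by positivity
  have hq1 : 1 < q := by linarith
  have hq0 : 0 < q := by linarith
  set σ0 : ℝ := d * (q - 1) with hσ0
  have hσ01 : 1 < σ0 := by
    have h1 : 1 / (d:ℝ) < q - 1 := by linarith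
    rw [div_lt_iff₀ hd0] at h1
    rw [hσ0]; linarith
  have hσi : σ0⁻¹ < 1 := inv_lt_one_of_one_lt₀ hσ01
  have hσi0 : 0 < σ0⁻¹ := by positivity
  set θ : ℝ := 1 - (1 + σ0⁻¹) / 4 with hθ
  have hθ1 : 1 / 2 < θ := by rw [hθ]; linarith
  have hθ2 : θ < 1 := by rw [hθ]; linarith
  set σ : ℝ := d * ((2 - 2 * θ) * (q - 1)) with hσ
  have hσ1 : 1 < σ := by
    have h1 : σ = (σ0 + 1) / 2 := by
      have h2 : σ = (1 + σ0⁻¹) / 2 * σ0 := by
        rw [hσ, hθ, hσ0]; ring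
      rw [h2]
      field_simp
    rw [h1]; linarith
  obtain ⟨C1, hC1, hpack⟩ := cap_packing d
  obtain ⟨Cs, hCs, hscale⟩ := scale_q d hd hq1 hq2 hθ1 hθ2
  set C2 : ℝ := C1 * 3 ^ d with hC2
  have hC20 : 0 < C2 := by positivity
  set A : ℝ := K * C2 ^ (1 / (d:ℝ)) with hA
  have hA0 : 0 < A := by positivity
  set c0 : ℝ := 2 * A * (2 * K) ^ d with hc0
  set c1 : ℝ := Cs * (R + K) ^ σ * A ^ (1 - σ) * K ^ d with hc1
  set lam : ℝ := 2 ^ ((1 - σ) / q) with hlam
  have hlam0 : 0 < lam := by positivity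
  have hlam1 : lam < 1 := by
    apply Real.rpow_lt_one_of_one_lt_of_neg (by norm_num)
    apply div_neg_of_neg_of_pos (by linarith) hq0
  have hc00 : 0 < c0 := by positivity
  have hc10 : 0 < c1 := by positivity
  have hl1 : 0 < 1 - lam := by linarith
  refine ⟨(c0 ^ (1 / q) + c1 ^ (1 / q) * (1 - lam)⁻¹) ^ q, by positivity, ?_⟩
  intro N γ hγ hN δ hδ hδ1 ι _ _ e t he hsep
  classical
  have hM0 : 0 < (Fintype.card ι : ℝ) := by exact_mod_cast Fintype.card_pos
  set M : ℝ := (Fintype.card ι : ℝ) with hM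
  set X : ℝ := δ ^ d * M ^ (q - 1 / d) with hX
  have hX0 : 0 < X := by positivity
  set W : ℝ := (N + 1 : ℝ) ^ (q - 1) * X with hW
  have hW0 : 0 < W := by positivity
  have hXW : X ≤ W := by
    rw [hW]
    have h1 : (1:ℝ) ≤ (N + 1 : ℝ) ^ (q - 1) := by
      apply Real.one_le_rpow _ (by linarith)
      have : (0:ℝ) ≤ N := Nat.cast_nonneg N
      linarith
    nlinarith
  -- the cardinality
  have hMle : δ ^ d * M ≤ C2 := by
    obtain ⟨i0⟩ := ‹Nonempty ι›
    have h1 := hpack δ 2 hδ hδ1 (by norm_num) ι Finset.univ e (e i0) (he i0) (fun i _ => he i)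
      (fun i _ j _ hij => hsep i j hij) (fun i _ => by
        refine (norm_sub_le _ _).trans ?_
        rw [he i, he i0]; norm_num)
    rw [Finset.card_univ] at h1
    have h2 : ((δ + 2) / δ) ^ d ≤ 3 ^ d * (δ ^ d)⁻¹ := by
      rw [div_pow, div_eq_mul_inv]
      gcongr
      linarith
    calc δ ^ d * M ≤ δ ^ d * (C1 * (3 ^ d * (δ ^ d)⁻¹)) := by
          gcongr
          exact h1.trans (by gcongr)
      _ = C2 := by
          rw [hC2]; field_simp
  set r : ℝ := A * M ^ (-(1 / (d:ℝ))) with hr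
  have hr0 : 0 < r := by positivity
  have hρr : K * δ ≤ r := by
    have h1 : (δ ^ d * M) ^ (1 / (d:ℝ)) ≤ C2 ^ (1 / (d:ℝ)) :=
      Real.rpow_le_rpow (by positivity) hMle (by positivity)
    have h2 : (δ ^ d * M) ^ (1 / (d:ℝ)) = δ * M ^ (1 / (d:ℝ)) := by
      rw [Real.mul_rpow (by positivity) (by positivity), ← Real.rpow_natCast,
        ← Real.rpow_mul hδ.le]
      congr 1
      rw [mul_one_div_cancel hd0.ne', Real.rpow_one]
    rw [h2] at h1
    have h3 : M ^ (1 / (d:ℝ)) * M ^ (-(1 / (d:ℝ))) = 1 := by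
      rw [← Real.rpow_add hM0, add_neg_cancel, Real.rpow_zero]
    calc K * δ = K * (δ * M ^ (1 / (d:ℝ))) * M ^ (-(1 / (d:ℝ))) := by
          rw [mul_assoc, mul_assoc δ, h3, mul_one]
      _ ≤ K * C2 ^ (1 / (d:ℝ)) * M ^ (-(1 / (d:ℝ))) := by gcongr
      _ = r := by rw [hr, hA]
  have hρ : 0 < K * δ := by positivity
  obtain ⟨J, hJ⟩ : ∃ J : ℕ, R < 2 ^ J * r := by
    obtain ⟨J, hJ⟩ := pow_unbounded_of_one_lt (R / r) (by norm_num : (1:ℝ) < 2)
    refine ⟨J, ?_⟩
    rwa [div_lt_iff₀ hr0] at hJ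
  set S : Finset ℕ := (Finset.range J).filter (fun j => (2:ℝ) ^ j * r ≤ R) with hS
  set p : ι → E (d + 1) := fun i => γ (t i) with hp
  set F0 : E (d + 1) → ℝ≥0∞ := Fs (K * δ) (Icc (-r) r) e p with hF0
  set Fj : ℕ → E (d + 1) → ℝ≥0∞ := fun j => Fs (K * δ) (shell (2 ^ j * r)) e p with hFj
  have hF0m : Measurable F0 := measurable_Fs _ measurableSet_Icc _ _
  have hFjm : ∀ j, Measurable (Fj j) := fun j => measurable_Fs _ (measurableSet_shell _) _ _
  -- the core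
  have hcore : ∫⁻ y, F0 y ^ q ≤ ENNReal.ofReal (c0 * X) := by
    have h1 := lintegral_Fs_le (p := p) hρ hr0 measurableSet_Icc (le_refl (Icc (-r) r)) he
    have h2 : ∀ y, F0 y ^ q ≤ ENNReal.ofReal (M ^ (q - 1)) * F0 y := by
      intro y
      have h3 : F0 y ≤ ENNReal.ofReal M := by
        have := Fs_le (K * δ) (Icc (-r) r) e p y
        rw [hM, ENNReal.ofReal_natCast]
        exact this
      have e1 : q = (q - 1) + 1 := by ring
      conv_lhs => rw [e1]
      rw [ENNReal.rpow_add_of_nonneg _ _ (by linarith) (by norm_num), ENNReal.rpow_one,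
        ← ENNReal.ofReal_rpow_of_nonneg hM0.le (by linarith)]
      gcongr
    calc ∫⁻ y, F0 y ^ q ≤ ∫⁻ y, ENNReal.ofReal (M ^ (q - 1)) * F0 y := lintegral_mono h2
      _ = ENNReal.ofReal (M ^ (q - 1)) * ∫⁻ y, F0 y :=
          lintegral_const_mul' _ _ ENNReal.ofReal_ne_top
      _ ≤ ENNReal.ofReal (M ^ (q - 1)) * ENNReal.ofReal (M * (2 * r * (2 * (K * δ)) ^ d)) := by
          gcongr
      _ = ENNReal.ofReal (c0 * X) := by
          rw [← ENNReal.ofReal_mul (by positivity)]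
          congr 1
          have e1 : M ^ (q - 1 / d) = M ^ (q - 1) * M * M ^ (-(1 / (d:ℝ))) := by
            have h4 : M ^ (q - 1) * M = M ^ (q - 1 + 1) := by
              rw [Real.rpow_add hM0, Real.rpow_one]
            rw [h4, ← Real.rpow_add hM0]
            congr 1
            ring
          rw [hX, hc0, e1, hr, mul_pow 2 (K * δ), mul_pow K, mul_pow 2 K]
          ring
  -- the shells
  have hshell : ∀ j ∈ S, ∫⁻ y, Fj j y ^ q ≤ ENNReal.ofReal (c1 * W * (lam ^ j) ^ q) := by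
    intro j hj
    have hjR := (Finset.mem_filter.1 hj).2
    set l : ℝ := 2 ^ j * r with hl
    have h2j : (1:ℝ) ≤ 2 ^ j := one_le_pow₀ (by norm_num)
    have hrl : r ≤ l := by rw [hl]; nlinarith
    have hl0 : 0 < l := by positivity
    have h1 := hscale N γ hγ hN δ (K * δ) l ((R + K) / l) hδ hδ1 hρ (hρr.trans hrl) (by
      have e1 : (δ + K * δ / l) / δ = (l + K) / l := by field_simp
      rw [e1]
      gcongr) ι e t he hsep
    refine h1.trans (le_of_eq ?_)
    congr 1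
    rw [← hσ]
    have e1 : ((R + K) / l) ^ σ * l = (R + K) ^ σ * l ^ (1 - σ) := by
      rw [Real.div_rpow (by positivity) hl0.le, Real.rpow_sub hl0, Real.rpow_one]
      ring
    have e2 : l ^ (1 - σ) = (lam ^ j) ^ q * (A ^ (1 - σ) * M ^ (-(1 / (d:ℝ)) * (1 - σ))) := by
      rw [hl, Real.mul_rpow (by positivity) hr0.le, hr, Real.mul_rpow hA0.le (by positivity),
        ← Real.rpow_mul hM0.le]
      congr 1
      rw [hlam, ← Real.rpow_natCast, ← Real.rpow_natCast, ← Real.rpow_mul (by positivity),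
        ← Real.rpow_mul (by positivity), ← Real.rpow_mul (by positivity)]
      congr 1
      field_simp
    have e3 : M ^ (q - 1 / d) = M ^ (2 - q + 2 * θ * (q - 1)) * M ^ (-(1 / (d:ℝ)) * (1 - σ)) := by
      rw [← Real.rpow_add hM0]
      congr 1
      rw [hσ]
      field_simp
      ring
    calc Cs * (N + 1 : ℝ) ^ (q - 1) * (((R + K) / l) ^ σ * M ^ (2 - q + 2 * θ * (q - 1)))
          * (l * (K * δ) ^ d)
        = Cs * (N + 1 : ℝ) ^ (q - 1) * M ^ (2 - q + 2 * θ * (q - 1)) * (K * δ) ^ d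
          * (((R + K) / l) ^ σ * l) := by ring
      _ = _ := by
          rw [e1, e2, hc1, hW, hX, e3, mul_pow]
          ring
  -- assembly
  have hsum : (∫⁻ y, Fs (K * δ) (Icc (-R) R) e p y ^ q) ^ (1 / q)
      ≤ ENNReal.ofReal ((c0 ^ (1 / q) + c1 ^ (1 / q) * (1 - lam)⁻¹) * W ^ (1 / q)) := by
    have hq1' : 0 ≤ 1 / q := by positivity
    calc (∫⁻ y, Fs (K * δ) (Icc (-R) R) e p y ^ q) ^ (1 / q)
        ≤ (∫⁻ y, (F0 y + ∑ j ∈ S, Fj j y) ^ q) ^ (1 / q) := by
          apply ENNReal.rpow_le_rpow _ hq1'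
          apply lintegral_mono
          intro y
          exact ENNReal.rpow_le_rpow (pointwise hr0 hJ e p y) hq0.le
      _ ≤ (∫⁻ y, F0 y ^ q) ^ (1 / q) + (∫⁻ y, (∑ j ∈ S, Fj j y) ^ q) ^ (1 / q) :=
          ENNReal.lintegral_Lp_add_le hF0m.aemeasurable
            (Finset.measurable_fun_sum S (fun j _ => hFjm j)).aemeasurable hq1.le
      _ ≤ (∫⁻ y, F0 y ^ q) ^ (1 / q) + ∑ j ∈ S, (∫⁻ y, Fj j y ^ q) ^ (1 / q) := by
          gcongr
          exact minkowski hq1.le S Fj hFjm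
      _ ≤ ENNReal.ofReal (c0 ^ (1 / q) * W ^ (1 / q))
          + ∑ j ∈ S, ENNReal.ofReal (c1 ^ (1 / q) * W ^ (1 / q) * lam ^ j) := by
          apply add_le_add
          · refine (ENNReal.rpow_le_rpow hcore hq1').trans ?_
            rw [ENNReal.ofReal_rpow_of_nonneg (by positivity) hq1',
              Real.mul_rpow hc00.le hX0.le]
            apply ENNReal.ofReal_le_ofReal
            gcongr
          · apply Finset.sum_le_sum
            intro j hj
            refine (ENNReal.rpow_le_rpow (hshell j hj) hq1').trans (le_of_eq ?_)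
            rw [ENNReal.ofReal_rpow_of_nonneg (by positivity) hq1',
              Real.mul_rpow (by positivity) (by positivity), Real.mul_rpow hc10.le hW0.le,
              ← Real.rpow_mul (by positivity), mul_one_div_cancel hq0.ne', Real.rpow_one]
      _ = ENNReal.ofReal (c0 ^ (1 / q) * W ^ (1 / q)
          + c1 ^ (1 / q) * W ^ (1 / q) * ∑ j ∈ S, lam ^ j) := by
          rw [← ENNReal.ofReal_sum_of_nonneg (fun _ _ => by positivity),
            ← ENNReal.ofReal_add (by positivity) (by positivity), Finset.mul_sum]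
      _ ≤ _ := by
          apply ENNReal.ofReal_le_ofReal
          have h1 : ∑ j ∈ S, lam ^ j ≤ (1 - lam)⁻¹ := by
            rw [← tsum_geometric_of_lt_one hlam0.le hlam1]
            exact (summable_geometric_of_lt_one hlam0.le hlam1).sum_le_tsum S
              (fun _ _ => by positivity)
          have h2 : 0 ≤ c1 ^ (1 / q) * W ^ (1 / q) := by positivity
          nlinarith [mul_le_mul_of_nonneg_left h1 h2]
  have h1 := ENNReal.rpow_le_rpow hsum hq0.le
  rw [← ENNReal.rpow_mul, one_div_mul_cancel hq0.ne', ENNReal.rpow_one,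
    ENNReal.ofReal_rpow_of_nonneg (by positivity) hq0.le,
    Real.mul_rpow (by positivity) (by positivity), ← Real.rpow_mul hW0.le,
    one_div_mul_cancel hq0.ne', Real.rpow_one] at h1
  exact h1

end Pool.Agent.K3h46.TMC
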