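import Pool.Agent.W767.Kc.Asm2

set_option autoImplicit false
set_option linter.unusedSectionVars false

/-!
The maximal estimate of `Pool.Agent.W767.Kc` over finitely many points of the curve: the loss is
the square of the logarithm of the number of points.
-/

open MeasureTheory Set Filter Topology ENNReal NNReal Metric

namespace Pool.Agent.K3h46.TMC

open Pool.Agent.H742R2.Kk
open Pool.Agent.W767.Kc

theorem exists_enum (T : Finset ℝ) (hT : T.Nonempty) {m : ℕ} (hm : T.card ≤ m) :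
    ∃ u : ℕ → ℝ, Monotone u ∧ (∀ k, u k ∈ T) ∧ ∀ t ∈ T, ∃ k < m, u k = t := by
  have h1 : 1 ≤ T.card := hT.card_pos
  obtain ⟨l, hl⟩ : ∃ l, T.card = l + 1 := ⟨T.card - 1, by omega⟩
  set o := T.orderEmbOfFin hl with ho
  refine ⟨fun k => o ⟨min k l, by omega⟩, ?_, fun k => T.orderEmbOfFin_mem hl _, ?_⟩
  · intro a b hab
    apply o.monotone
    rw [Fin.mk_le_mk]
    exact min_le_min hab le_rfl
  · intro t ht
    have hr : t ∈ Set.range o := by
      rw [ho, Finset.range_orderEmbOfFin]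
      exact ht
    obtain ⟨⟨k, hk⟩, hk2⟩ := hr
    refine ⟨k, by omega, ?_⟩
    rw [← hk2]
    simp only
    congr 1
    rw [Fin.mk.injEq]
    omega

theorem chart_cube_fin {d N : ℕ} (hd : 1 ≤ d) {γ : ℝ → E (d + 1)} (hγ : Continuous γ)
    (hN : OrderLE N γ) {H : E (d + 1) → ℝ≥0∞} (hH : Measurable H) (T : Finset ℝ) {J : ℕ}
    (hJ : T.card ≤ 2 ^ J) (m : Fin (d + 1) → ℤ) :
    ∃ M : E (d + 1) → ℝ≥0∞, Measurable M ∧
      (∀ e ∈ cone d, ‖e‖ = 1 → ∀ t ∈ T, (∀ i, |γ t i - ((m i : ℝ) / 4 + 1 / 8)| ≤ 1 / 8) →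
        (∫⁻ s in Icc (1:ℝ) 2, H (γ t + s • e)) ^ 2 ≤ M e) ∧
      ∫⁻ v : E d, M (‖ins 1 v‖⁻¹ • ins 1 v)
        ≤ 2 * (((J:ℝ≥0∞) + 1) ^ 2 * ((N + 1) * cc d (1/4) (9/4)
          * ∫⁻ x, (bigQ m).indicator (fun x => H x ^ 2) x)) := by
  classical
  set Tm : Finset ℝ := T.filter (fun t => ∀ i, |γ t i - ((m i : ℝ) / 4 + 1 / 8)| ≤ 1 / 8) with hTm
  rcases Tm.eq_empty_or_nonempty with hne | hne
  · refine ⟨fun _ => 0, measurable_const, ?_, by simp⟩
    intro e _ _ t ht1 ht2
    have : t ∈ Tm := Finset.mem_filter.2 ⟨ht1, ht2⟩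
    rw [hne] at this
    exact absurd this (Finset.notMem_empty t)
  obtain ⟨u, hum, huT, hugrid⟩ := exists_enum Tm hne ((Finset.card_filter_le _ _).trans hJ)
  have huQ : ∀ k, ∀ i, |γ (u k) i - ((m i : ℝ) / 4 + 1 / 8)| ≤ 1 / 8 := fun k =>
    (Finset.mem_filter.1 (huT k)).2
  set Hm : E (d + 1) → ℝ≥0∞ := (bigQ m).indicator H with hHm
  have hHmm : Measurable Hm := hH.indicator (measurableSet_bigQ m)
  set Hh : E d × ℝ → ℝ≥0∞ := fun q => Hm (ins q.2 q.1) with hHh
  have hHhm : Measurable Hh := by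
    have h1 : Measurable (fun q : E d × ℝ => ins q.2 q.1) :=
      measurable_ins.comp (measurable_snd.prodMk measurable_fst)
    exact hHmm.comp h1
  set p : ℕ → E d := fun k => tl (γ (u k)) with hp
  set κ : ℕ → ℝ := fun k => γ (u k) 0 with hκ
  have hCA : CrossAll N p κ := crossAll_of_order hγ hN hum
  have hκm : ∀ k, (m 0 : ℝ) / 4 ≤ κ k ∧ κ k ≤ (m 0 : ℝ) / 4 + 1 / 4 := by
    intro k
    have := abs_le.1 (huQ k 0)
    constructor <;> simp only [hκ] <;> linarith [this.1, this.2]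
  have hsup : ∀ k y h, Hh (y, h) ≠ 0 → (1:ℝ)/4 ≤ h - κ k ∧ h - κ k ≤ 9/4 := by
    intro k y h hne0
    have h1 : ins h y ∈ bigQ m := by
      by_contra h2
      exact hne0 (indicator_of_notMem h2 _)
    obtain ⟨h3, h4, -⟩ := h1
    rw [ins_zero] at h3 h4
    have := hκm k
    constructor <;> linarith [this.1, this.2]
  set M : E (d + 1) → ℝ≥0∞ := fun e =>
    2 * ((Finset.range (2 ^ J)).sup (fun k => gN Hh (p k) (κ k) ((e 0)⁻¹ • tl e))) ^ 2 with hM
  refine ⟨M, ?_, ?_, ?_⟩
  · have h1 : Measurable (fun e : E (d + 1) => (e 0)⁻¹ • tl e) :=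
      (measurable_apply 0).inv.smul measurable_tl
    have h2 : Measurable (fun e : E (d + 1) => (Finset.range (2 ^ J)).sup
        (fun k => gN Hh (p k) (κ k) ((e 0)⁻¹ • tl e))) :=
      measurable_finset_sup _ (fun k => (measurable_gN hHhm (p k) (κ k)).comp h1)
    exact (h2.pow_const 2).const_mul 2
  · intro e he he1 t ht1 ht2
    obtain ⟨k, hk, hkt⟩ := hugrid t (Finset.mem_filter.2 ⟨ht1, ht2⟩)
    subst hkt
    have he0 : 7 / 10 ≤ e 0 := cone_zero he he1
    have he0p : 0 < e 0 := by linarith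
    have he01 : e 0 ≤ 1 := by
      have := abs_apply_le e 0
      rw [he1] at this
      exact (le_abs_self _).trans this
    have step1 : ∫⁻ s in Icc (1:ℝ) 2, H (γ (u k) + s • e)
        ≤ ∫⁻ s : ℝ, Hm (γ (u k) + s • e) := by
      refine le_trans ?_ (setLIntegral_le_lintegral (Icc (1:ℝ) 2) _)
      apply setLIntegral_mono' measurableSet_Icc
      intro s hs
      have hmem : γ (u k) + s • e ∈ bigQ m := by
        have hk0 := hκm k
        simp only [hκ] at hk0
        refine ⟨?_, ?_, ?_⟩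
        · simp only [PiLp.add_apply, PiLp.smul_apply, smul_eq_mul]
          nlinarith [hs.1, hs.2, hk0.1]
        · simp only [PiLp.add_apply, PiLp.smul_apply, smul_eq_mul]
          nlinarith [hs.1, hs.2, hk0.2]
        · intro i
          simp only [PiLp.add_apply, PiLp.smul_apply, smul_eq_mul]
          have h1 := abs_le.1 (huQ k i)
          have h2 : |s * e i| ≤ 2 := by
            rw [abs_mul, abs_of_pos (by linarith [hs.1] : 0 < s)]
            have := abs_apply_le e i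
            rw [he1] at this
            nlinarith [hs.1, hs.2, abs_nonneg (e i)]
          have h3 := abs_le.1 h2
          rw [abs_le]
          constructor <;> linarith [h1.1, h1.2, h3.1, h3.2]
      rw [hHm, indicator_of_mem hmem]
    have step2 : ∫⁻ s : ℝ, Hm (γ (u k) + s • e)
        = ENNReal.ofReal ((e 0)⁻¹) * gN Hh (p k) (κ k) ((e 0)⁻¹ • tl e) := by
      set g : ℝ → ℝ≥0∞ := fun h => Hh (p k + (h - κ k) • ((e 0)⁻¹ • tl e), h) with hg
      have hgm : Measurable g := by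
        apply hHhm.comp
        fun_prop
      have e1 : ∀ s : ℝ, Hm (γ (u k) + s • e) = g (κ k + e 0 * s) := by
        intro s
        rw [hg, hHh]
        simp only
        congr 1
        rw [← ins_eta (γ (u k) + s • e), tl_add, tl_smul]
        congr 1
        · simp only [PiLp.add_apply, PiLp.smul_apply, smul_eq_mul, hκ]
          ring
        · congr 1
          rw [smul_smul]
          congr 1
          field_simp
          ring
      simp_rw [e1]
      rw [lintegral_comp_mul (f := fun x => g (κ k + x)) (hgm.comp (measurable_const_add _))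
        he0p.ne', lintegral_add_left_eq_self g (κ k), abs_of_pos (by positivity)]
      rfl
    calc (∫⁻ s in Icc (1:ℝ) 2, H (γ (u k) + s • e)) ^ 2
        ≤ (ENNReal.ofReal ((e 0)⁻¹) * gN Hh (p k) (κ k) ((e 0)⁻¹ • tl e)) ^ 2 := by
          rw [← step2]
          exact pow_le_pow_left' step1 2
      _ = ENNReal.ofReal (((e 0)⁻¹) ^ 2) * gN Hh (p k) (κ k) ((e 0)⁻¹ • tl e) ^ 2 := by
          rw [mul_pow, ENNReal.ofReal_pow (by positivity)]
      _ ≤ M e := by
          rw [hM]
          simp only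
          gcongr
          · have h2 : ((e 0)⁻¹) ^ 2 ≤ 2 := by
              rw [inv_pow]
              have := cone_zero_sq he he1
              rw [inv_le_comm₀ (by positivity) (by norm_num)]
              linarith
            exact (ENNReal.ofReal_le_ofReal h2).trans (by simp)
          · exact Finset.le_sup (f := fun k => gN Hh (p k) (κ k) ((e 0)⁻¹ • tl e))
              (Finset.mem_range.2 hk)
  · have hfr : Module.finrank ℝ (E d) = d := by simp
    have h1 := chain_meas (V := E d) (by rw [hfr]; exact hd) hHhm (s0 := 1/4) (s1 := 9/4)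
      (by norm_num) (by norm_num) J p κ hCA hsup
    rw [hfr] at h1
    have e1 : ∀ v : E d, M (‖ins 1 v‖⁻¹ • ins 1 v)
        = 2 * ((Finset.range (2 ^ J)).sup (fun k => gN Hh (p k) (κ k) v)) ^ 2 := by
      intro v
      have hne : ‖ins 1 v‖ ≠ 0 := by
        rw [norm_ne_zero_iff]
        intro h
        have := congrArg (fun x : E (d + 1) => x 0) h
        simp only [ins_zero] at this
        simp at this
      rw [hM]
      simp only
      have e2 : ((‖ins 1 v‖⁻¹ • ins 1 v : E (d + 1)) 0)⁻¹ • tl (‖ins 1 v‖⁻¹ • ins 1 v) = v := by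
        rw [tl_smul, tl_ins, PiLp.smul_apply, ins_zero, smul_eq_mul, mul_one, inv_inv, smul_smul,
          mul_inv_cancel₀ hne, one_smul]
      rw [e2]
    simp_rw [e1]
    rw [lintegral_const_mul' _ _ (by norm_num)]
    gcongr 2 * ?_
    refine h1.trans ?_
    gcongr
    have h3 : ∫⁻ q, Hh q ^ 2 = ∫⁻ x, Hm x ^ 2 := by
      rw [lintegral_ins (hHmm.pow_const 2), Measure.volume_eq_prod,
        lintegral_prod_symm' _ (hHhm.pow_const 2)]
    rw [h3]
    apply le_of_eq
    congr 1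
    ext x
    rw [hHm]
    by_cases hx : x ∈ bigQ m
    · rw [indicator_of_mem hx, indicator_of_mem hx]
    · rw [indicator_of_notMem hx, indicator_of_notMem hx]
      simp

/-- The chart estimate. -/
theorem chart_est_fin {d N : ℕ} (hd : 1 ≤ d) {γ : ℝ → E (d + 1)} (hγ : Continuous γ)
    (hN : OrderLE N γ) {H : E (d + 1) → ℝ≥0∞} (hH : Measurable H) (T : Finset ℝ) {J : ℕ}
    (hJ : T.card ≤ 2 ^ J) :
    ∃ M : E (d + 1) → ℝ≥0∞, Measurable M ∧
      (∀ e ∈ cone d, ‖e‖ = 1 → ∀ t ∈ T, (∫⁻ s in Icc (1:ℝ) 2, H (γ t + s • e)) ^ 2 ≤ M e) ∧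
      ∫⁻ v : E d, M (‖ins 1 v‖⁻¹ • ins 1 v)
        ≤ cChart d * (((J:ℝ≥0∞) + 1) ^ 2 * (N + 1)) * ∫⁻ x, H x ^ 2 := by
  choose M hMm hMle hMint using fun m => chart_cube_fin hd hγ hN hH T hJ m
  refine ⟨fun e => ∑' m, M m e, Measurable.tsum hMm, ?_, ?_⟩
  · intro e he he1 t ht
    set m : Fin (d + 1) → ℤ := fun i => ⌊4 * γ t i⌋ with hm
    refine (hMle m e he he1 t ht ?_).trans (ENNReal.le_tsum (f := fun m => M m e) m)
    intro i
    have h1 := Int.floor_le (4 * γ t i)
    have h2 := Int.lt_floor_add_one (4 * γ t i)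
    rw [abs_le]
    constructor <;> simp only [hm] <;> linarith
  · rw [lintegral_tsum]
    swap
    · intro m
      have h1 : Measurable (fun v : E d => ins 1 v) :=
        measurable_ins.comp (measurable_const.prodMk measurable_id)
      exact ((hMm m).comp (h1.norm.inv.smul h1)).aemeasurable
    calc ∑' m, ∫⁻ v : E d, M m (‖ins 1 v‖⁻¹ • ins 1 v)
        ≤ ∑' m, 2 * (((J:ℝ≥0∞) + 1) ^ 2 * ((N + 1) * cc d (1/4) (9/4)
          * ∫⁻ x, (bigQ m).indicator (fun x => H x ^ 2) x)) :=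
          ENNReal.tsum_le_tsum hMint
      _ = (2 * (((J:ℝ≥0∞) + 1) ^ 2 * ((N + 1) * cc d (1/4) (9/4)))) *
          ∑' m, ∫⁻ x, (bigQ m).indicator (fun x => H x ^ 2) x := by
          rw [← ENNReal.tsum_mul_left]
          congr 1
          ext m
          ring
      _ = (2 * (((J:ℝ≥0∞) + 1) ^ 2 * ((N + 1) * cc d (1/4) (9/4)))) *
          ∫⁻ x, ∑' m, (bigQ m).indicator (fun x => H x ^ 2) x := by
          rw [lintegral_tsum]
          intro m
          exact ((hH.pow_const 2).indicator (measurableSet_bigQ m)).aemeasurable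
      _ ≤ (2 * (((J:ℝ≥0∞) + 1) ^ 2 * ((N + 1) * cc d (1/4) (9/4)))) *
          ∫⁻ x, 25 ^ (d + 1) * H x ^ 2 := by
          gcongr with x
          exact overlap (fun x => H x ^ 2) x
      _ = _ := by
          rw [lintegral_const_mul' _ _ (ENNReal.pow_ne_top (by norm_num)), cChart]
          ring

/-- The estimate on the whole sphere at unit scale. -/
theorem sph_unit_fin (d : ℕ) (hd : 1 ≤ d) : ∃ C : ℝ≥0∞, C ≠ ∞ ∧
    ∀ (N : ℕ) (γ : ℝ → E (d + 1)), Continuous γ → OrderLE N γ →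
    ∀ (H : E (d + 1) → ℝ≥0∞), Measurable H → ∀ (T : Finset ℝ) (J : ℕ), T.card ≤ 2 ^ J →
    ∃ M : E (d + 1) → ℝ≥0∞, Measurable M ∧
      (∀ e, ‖e‖ = 1 → ∀ t ∈ T, (∫⁻ s in Icc (1:ℝ) 2, H (γ t + s • e)) ^ 2 ≤ M e) ∧
      ∫⁻ x in closedBall (0 : E (d + 1)) 1, M (‖x‖⁻¹ • x)
        ≤ C * (((J:ℝ≥0∞) + 1) ^ 2 * (N + 1)) * ∫⁻ x, H x ^ 2 := by
  obtain ⟨s, hs⟩ := exists_rot d
  refine ⟨s.card * cChart d, ENNReal.mul_ne_top (ENNReal.natCast_ne_top _) (cChart_ne_top d), ?_⟩
  intro N γ hγ hN H hH T J hJ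
  have hex : ∀ R : E (d + 1) ≃ₗᵢ[ℝ] E (d + 1), ∃ M : E (d + 1) → ℝ≥0∞, Measurable M ∧
      (∀ e ∈ cone d, ‖e‖ = 1 → ∀ t ∈ T,
        (∫⁻ s in Icc (1:ℝ) 2, H (R.symm (R (γ t) + s • e))) ^ 2 ≤ M e) ∧
      ∫⁻ v : E d, M (‖ins 1 v‖⁻¹ • ins 1 v)
        ≤ cChart d * (((J:ℝ≥0∞) + 1) ^ 2 * (N + 1)) * ∫⁻ x, H x ^ 2 := by
    intro R
    obtain ⟨M, h1, h2, h3⟩ := chart_est_fin hd (R.continuous.comp hγ) (hN.map R)
      (H := fun x => H (R.symm x)) (hH.comp R.symm.continuous.measurable) T hJ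
    refine ⟨M, h1, h2, h3.trans (le_of_eq ?_)⟩
    congr 1
    exact R.symm.measurePreserving.lintegral_comp (hH.pow_const 2)
  choose M hMm hMle hMint using hex
  refine ⟨fun e => ∑ R ∈ s, (cone d).indicator (M R) (R e), ?_, ?_, ?_⟩
  · apply Finset.measurable_fun_sum
    intro R _
    exact ((hMm R).indicator (measurableSet_cone d)).comp R.continuous.measurable
  · intro e he t ht
    obtain ⟨R, hRs, hRe⟩ := hs e he
    refine le_trans ?_ (Finset.single_le_sum (f := fun R => (cone d).indicator (M R) (R e))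
      (fun _ _ => zero_le) hRs)
    rw [indicator_of_mem hRe]
    have h1 := hMle R (R e) hRe (by rw [R.norm_map, he]) t ht
    refine le_trans (le_of_eq ?_) h1
    congr 2
    ext s
    rw [← map_smul, ← map_add, R.symm_apply_apply]
  · have hm : ∀ R : E (d + 1) ≃ₗᵢ[ℝ] E (d + 1),
        Measurable (fun x : E (d + 1) => (cone d).indicator (M R) (R (‖x‖⁻¹ • x))) := fun R =>
      (((hMm R).indicator (measurableSet_cone d)).comp R.continuous.measurable).comp measurable_dir
    rw [lintegral_finsetSum _ (fun R _ => hm R)]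
    calc ∑ R ∈ s, ∫⁻ x in closedBall (0 : E (d + 1)) 1,
          (cone d).indicator (M R) (R (‖x‖⁻¹ • x))
        ≤ ∑ R ∈ s, cChart d * (((J:ℝ≥0∞) + 1) ^ 2 * (N + 1)) * ∫⁻ x, H x ^ 2 := by
          apply Finset.sum_le_sum
          intro R _
          refine le_trans (le_of_eq ?_) ((ball_cone (hMm R)).trans (hMint R))
          have h1 := (R.measurePreserving.restrict_preimage
            (isClosed_closedBall (x := (0 : E (d + 1))) (ε := 1)).measurableSet).lintegral_comp
            (((hMm R).indicator (measurableSet_cone d)).comp measurable_dir)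
          have h2 : R ⁻¹' closedBall (0 : E (d + 1)) 1 = closedBall 0 1 := by
            ext x
            simp
          rw [h2] at h1
          refine Eq.trans ?_ h1
          congr 1
          ext x
          simp only [Function.comp]
          rw [R.norm_map, map_smul]
      _ = _ := by
          rw [Finset.sum_const, nsmul_eq_mul]
          ring

/-- The estimate at all scales. -/
theorem sph_scale_fin (d : ℕ) (hd : 1 ≤ d) : ∃ C : ℝ≥0∞, C ≠ ∞ ∧
    ∀ (N : ℕ) (γ : ℝ → E (d + 1)), Continuous γ → OrderLE N γ →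
    ∀ (H : E (d + 1) → ℝ≥0∞), Measurable H →
    ∀ l : ℝ, 0 < l → ∀ (T : Finset ℝ) (J : ℕ), T.card ≤ 2 ^ J →
    ∃ M : E (d + 1) → ℝ≥0∞, Measurable M ∧
      (∀ e, ‖e‖ = 1 → ∀ t ∈ T, (∫⁻ s in shell l, H (γ t + s • e)) ^ 2 ≤ M e) ∧
      ∫⁻ x in closedBall (0 : E (d + 1)) 1, M (‖x‖⁻¹ • x)
        ≤ C * (((J:ℝ≥0∞) + 1) ^ 2 * (N + 1)) * (ENNReal.ofReal (l * (l ^ d)⁻¹)
          * ∫⁻ x, H x ^ 2) := by
  obtain ⟨C, hC, hS⟩ := sph_unit_fin d hd
  refine ⟨4 * C, ENNReal.mul_ne_top (by norm_num) hC, ?_⟩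
  intro N γ hγ hN H hH l hl T J hJ
  obtain ⟨M, hMm, hMle, hMint⟩ := hS N (fun t => l⁻¹ • γ t) (by fun_prop)
    (hN.smul (by positivity)) (fun x => H (l • x))
    (hH.comp (measurable_const_smul l)) T J hJ
  have hone : ∀ e, ‖e‖ = 1 → ∀ t ∈ T, (∫⁻ s in Icc l (2 * l), H (γ t + s • e)) ^ 2
      ≤ ENNReal.ofReal (l ^ 2) * M e := by
    intro e he t ht
    have h1 := hMle e he t ht
    simp only [smul_add, smul_smul, mul_inv_cancel₀ hl.ne', one_smul] at h1
    set g : ℝ → ℝ≥0∞ := (Icc l (2 * l)).indicator (fun s => H (γ t + s • e)) with hg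
    have hgm : Measurable g := by
      apply Measurable.indicator _ measurableSet_Icc
      exact hH.comp (by fun_prop)
    have h2 : ∫⁻ s in Icc (1:ℝ) 2, H (γ t + (l * s) • e) = ∫⁻ s, g (l * s) := by
      rw [← lintegral_indicator measurableSet_Icc]
      congr 1
      ext s
      by_cases hs : s ∈ Icc (1:ℝ) 2
      · have hs' : l * s ∈ Icc l (2 * l) := ⟨by nlinarith [hs.1], by nlinarith [hs.2]⟩
        rw [indicator_of_mem hs, hg, indicator_of_mem hs']
      · have hs' : l * s ∉ Icc l (2 * l) := by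
          intro h
          apply hs
          constructor
          · by_contra h3
            push Not at h3
            nlinarith [h.1]
          · by_contra h3
            push Not at h3
            nlinarith [h.2]
        rw [indicator_of_notMem hs, hg, indicator_of_notMem hs']
    rw [h2, lintegral_comp_mul hgm hl.ne', abs_of_pos (by positivity)] at h1
    have h3 : ∫⁻ s in Icc l (2 * l), H (γ t + s • e) = ∫⁻ s, g s := by
      rw [hg, lintegral_indicator measurableSet_Icc]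
    have h4 : ENNReal.ofReal l * ENNReal.ofReal l⁻¹ = 1 := by
      rw [← ENNReal.ofReal_mul hl.le, mul_inv_cancel₀ hl.ne', ENNReal.ofReal_one]
    calc (∫⁻ s in Icc l (2 * l), H (γ t + s • e)) ^ 2
        = (ENNReal.ofReal l * (ENNReal.ofReal l⁻¹ * ∫⁻ s, g s)) ^ 2 := by
          rw [h3, ← mul_assoc, h4, one_mul]
      _ = ENNReal.ofReal (l ^ 2) * (ENNReal.ofReal l⁻¹ * ∫⁻ s, g s) ^ 2 := by
          rw [mul_pow, ENNReal.ofReal_pow hl.le]
      _ ≤ _ := by gcongr
  refine ⟨fun e => 2 * (ENNReal.ofReal (l ^ 2) * M e + ENNReal.ofReal (l ^ 2) * M (-e)),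
    ?_, ?_, ?_⟩
  · exact ((hMm.const_mul _).add ((hMm.comp measurable_neg).const_mul _)).const_mul _
  · intro e he t ht
    have hneg : ∫⁻ s in Icc (-(2 * l)) (-l), H (γ t + s • e)
        = ∫⁻ s in Icc l (2 * l), H (γ t + s • (-e)) := by
      have h2 := (Measure.measurePreserving_neg (volume : Measure ℝ)).restrict_preimage
        (measurableSet_Icc (a := -(2 * l)) (b := -l))
      have h3 : Measurable (fun s : ℝ => H (γ t + s • e)) := hH.comp (by fun_prop)
      have h4 := h2.lintegral_comp h3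
      have h5 : Neg.neg ⁻¹' Icc (-(2 * l)) (-l) = Icc l (2 * l) := by
        ext s
        simp only [mem_preimage, mem_Icc]
        constructor
        · rintro ⟨h6, h7⟩; constructor <;> linarith
        · rintro ⟨h6, h7⟩; constructor <;> linarith
      rw [h5] at h4
      rw [← h4]
      congr 1
      ext s
      rw [smul_neg, neg_smul]
    have h1 : ∫⁻ s in shell l, H (γ t + s • e)
        ≤ (∫⁻ s in Icc l (2 * l), H (γ t + s • e))
          + ∫⁻ s in Icc l (2 * l), H (γ t + s • (-e)) := by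
      rw [← hneg]
      exact (lintegral_mono_set shell_subset).trans (lintegral_union_le _ _ _)
    calc (∫⁻ s in shell l, H (γ t + s • e)) ^ 2
        ≤ ((∫⁻ s in Icc l (2 * l), H (γ t + s • e))
          + ∫⁻ s in Icc l (2 * l), H (γ t + s • (-e))) ^ 2 := pow_le_pow_left' h1 2
      _ ≤ 2 * ((∫⁻ s in Icc l (2 * l), H (γ t + s • e)) ^ 2
          + (∫⁻ s in Icc l (2 * l), H (γ t + s • (-e))) ^ 2) := add_sq_le _ _
      _ ≤ _ := by
          have h6 := hone e he t ht
          have h7 := hone (-e) (by rw [norm_neg, he]) t ht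
          exact mul_le_mul_right (add_le_add h6 h7) _
  · have hm1 : Measurable (fun x : E (d + 1) => M (‖x‖⁻¹ • x)) := hMm.comp measurable_dir
    have hm2 : Measurable (fun x : E (d + 1) => M (-(‖x‖⁻¹ • x))) :=
      (hMm.comp measurable_neg).comp measurable_dir
    have hneg : ∫⁻ x in closedBall (0 : E (d + 1)) 1, M (-(‖x‖⁻¹ • x))
        = ∫⁻ x in closedBall (0 : E (d + 1)) 1, M (‖x‖⁻¹ • x) := by
      have h2 := (Measure.measurePreserving_neg (volume : Measure (E (d + 1)))).restrict_preimage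
        (isClosed_closedBall (x := (0 : E (d + 1))) (ε := 1)).measurableSet
      have h4 := h2.lintegral_comp hm1
      have h5 : Neg.neg ⁻¹' closedBall (0 : E (d + 1)) 1 = closedBall 0 1 := by
        ext x
        simp
      rw [h5] at h4
      refine Eq.trans ?_ h4
      congr 1
      ext x
      rw [norm_neg, smul_neg]
    rw [lintegral_const_mul' _ _ (by norm_num), lintegral_add_left (hm1.const_mul _),
      lintegral_const_mul' _ _ ENNReal.ofReal_ne_top, lintegral_const_mul' _ _ ENNReal.ofReal_ne_top,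
      hneg]
    have hfr : Module.finrank ℝ (E (d + 1)) = d + 1 := by simp
    have h8 : ∫⁻ x, H (l • x) ^ 2 = ENNReal.ofReal ((l ^ (d + 1))⁻¹) * ∫⁻ x, H x ^ 2 := by
      have := lintegral_comp_smulV (f := fun x : E (d + 1) => H x ^ 2) (hH.pow_const 2) hl.ne'
      rw [this, hfr, abs_of_pos (by positivity)]
    rw [h8] at hMint
    have h9 : ENNReal.ofReal (l ^ 2) * ENNReal.ofReal ((l ^ (d + 1))⁻¹)
        = ENNReal.ofReal (l * (l ^ d)⁻¹) := by
      rw [← ENNReal.ofReal_mul (by positivity)]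
      congr 1
      field_simp
      ring
    calc 2 * ((ENNReal.ofReal (l ^ 2) * ∫⁻ x in closedBall (0 : E (d + 1)) 1, M (‖x‖⁻¹ • x))
          + ENNReal.ofReal (l ^ 2) * ∫⁻ x in closedBall (0 : E (d + 1)) 1, M (‖x‖⁻¹ • x))
        = 4 * (ENNReal.ofReal (l ^ 2) * ∫⁻ x in closedBall (0 : E (d + 1)) 1, M (‖x‖⁻¹ • x)) := by
          ring
      _ ≤ 4 * (ENNReal.ofReal (l ^ 2) * (C * (((J:ℝ≥0∞) + 1) ^ 2 * (N + 1)) *
          (ENNReal.ofReal ((l ^ (d + 1))⁻¹) * ∫⁻ x, H x ^ 2))) := by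
          gcongr
      _ = 4 * C * (((J:ℝ≥0∞) + 1) ^ 2 * (N + 1)) * ((ENNReal.ofReal (l ^ 2) *
          ENNReal.ofReal ((l ^ (d + 1))⁻¹)) * ∫⁻ x, H x ^ 2) := by ring
      _ = _ := by rw [h9]


end Pool.Agent.K3h46.TMC
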