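import Pool.Agent.K3h46.TMC.Fin
import Pool.Agent.TH539.Cap

set_option autoImplicit false
set_option linter.unusedSectionVars false

/-!
Geometry of tubes around the points of a curve.
-/

open MeasureTheory Set Filter Topology ENNReal NNReal Metric

namespace Pool.Agent.K3h46.TMC

open Pool.Agent.H742R2.Kk
open Pool.Agent.W767.Kc

/-- The set of points whose coordinate along the axis `p + ℝ e` lies in `S` and whose distance
from the axis is at most `ρ`. -/
def cyl {n : ℕ} (ρ : ℝ) (S : Set ℝ) (e p : E n) : Set (E n) :=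
  {y | (inner ℝ (y - p) e : ℝ) ∈ S ∧ ‖(y - p) - (inner ℝ (y - p) e : ℝ) • e‖ ≤ ρ}

theorem measurableSet_cyl {n : ℕ} (ρ : ℝ) {S : Set ℝ} (hS : MeasurableSet S) (e p : E n) :
    MeasurableSet (cyl ρ S e p) := by
  have h1 : Measurable (fun y : E n => (inner ℝ (y - p) e : ℝ)) := by fun_prop
  have h2 : Measurable (fun y : E n => ‖(y - p) - (inner ℝ (y - p) e : ℝ) • e‖) := by fun_prop
  exact (h1 hS).inter (measurableSet_le h2 measurable_const)

theorem cyl_mono {n : ℕ} {ρ ρ' : ℝ} (hρ : ρ ≤ ρ') {S S' : Set ℝ} (hS : S ⊆ S') (e p : E n) :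
    cyl ρ S e p ⊆ cyl ρ' S' e p := fun _ h => ⟨hS h.1, h.2.trans hρ⟩

/-- Upper bound for the volume of a cylinder. -/
theorem volume_cyl_le {d : ℕ} {ρ L : ℝ} (hρ : 0 < ρ) (hL : 0 < L) {e p : E (d + 1)}
    (he : ‖e‖ = 1) :
    volume (cyl ρ (Icc (-L) L) e p) ≤ ENNReal.ofReal (2 * L * (2 * ρ) ^ d) := by
  set c : ℝ := (2 * L)⁻¹ with hc
  have hc0 : 0 < c := by positivity
  have h1 : cyl ρ (Icc (-L) L) e p ⊆ (fun y => c • y) ⁻¹' (TH539.tube (c * ρ) e (c • p)) := by
    rintro y ⟨h1, h2⟩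
    have e1 : c • y - c • p = c • (y - p) := (smul_sub _ _ _).symm
    have e2 : (inner ℝ (c • y - c • p) e : ℝ) = c * inner ℝ (y - p) e := by
      rw [e1, inner_smul_left]; simp
    have e3 : (c • y - c • p) - (inner ℝ (c • y - c • p) e : ℝ) • e
        = c • ((y - p) - (inner ℝ (y - p) e : ℝ) • e) := by
      rw [e2, e1, ← smul_smul, ← smul_sub]
    refine ⟨?_, ?_⟩
    · show |(inner ℝ (c • y - c • p) e : ℝ)| ≤ 1 / 2
      rw [e2, abs_mul, abs_of_pos hc0]
      have h3 : |(inner ℝ (y - p) e : ℝ)| ≤ L := abs_le.2 h1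
      calc c * |(inner ℝ (y - p) e : ℝ)| ≤ c * L := by gcongr
        _ = 1 / 2 := by rw [hc]; field_simp
    · show ‖(c • y - c • p) - (inner ℝ (c • y - c • p) e : ℝ) • e‖ ≤ c * ρ
      rw [e3, norm_smul, Real.norm_of_nonneg hc0.le]
      gcongr
  calc volume (cyl ρ (Icc (-L) L) e p)
      ≤ volume ((fun y => c • y) ⁻¹' (TH539.tube (c * ρ) e (c • p))) := measure_mono h1
    _ = ENNReal.ofReal (|(c ^ (d + 1))⁻¹|) * volume (TH539.tube (c * ρ) e (c • p)) := by
        rw [Measure.addHaar_preimage_smul _ hc0.ne', finrank_euclideanSpace_fin]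
    _ ≤ ENNReal.ofReal (|(c ^ (d + 1))⁻¹|) * ENNReal.ofReal ((2 * (c * ρ)) ^ d) := by
        gcongr
        exact TH539.volume_tube_le (by positivity) he
    _ = _ := by
        rw [← ENNReal.ofReal_mul (by positivity), abs_of_pos (by positivity)]
        congr 1
        have h3 : c = (2 * L)⁻¹ := hc
        rw [h3, mul_pow, mul_pow, mul_pow, inv_pow, inv_inv, inv_pow, pow_succ]
        have : (2 * L) ^ d ≠ 0 := by positivity
        field_simp

theorem volume_shell_near {l ρ τ : ℝ} (hρ : 0 < ρ) (hl : ρ ≤ l) (hτ : τ ∈ shell l) :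
    ENNReal.ofReal ρ ≤ volume (shell l ∩ Icc (τ - ρ) (τ + ρ)) := by
  rcases le_or_gt 0 τ with h | h
  · have h1 := hτ.1
    have h2 := hτ.2
    rw [abs_of_nonneg h] at h1 h2
    calc ENNReal.ofReal ρ ≤ ENNReal.ofReal (min (τ + ρ) (2 * l) - max (τ - ρ) l) := by
          apply ENNReal.ofReal_le_ofReal
          rcases min_choice (τ + ρ) (2 * l) with h3 | h3 <;>
            rcases max_choice (τ - ρ) l with h4 | h4 <;> rw [h3, h4] <;> linarith
      _ = volume (Icc (max (τ - ρ) l) (min (τ + ρ) (2 * l))) := (Real.volume_Icc).symm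
      _ ≤ _ := by
          apply measure_mono
          rintro s ⟨h3, h4⟩
          have h5 := le_max_left (τ - ρ) l
          have h6 := le_max_right (τ - ρ) l
          have h7 := min_le_left (τ + ρ) (2 * l)
          have h8 := min_le_right (τ + ρ) (2 * l)
          refine ⟨⟨?_, ?_⟩, by linarith, by linarith⟩
          · rw [abs_of_nonneg (by linarith)]; linarith
          · rw [abs_of_nonneg (by linarith)]; linarith
  · have h1 := hτ.1
    have h2 := hτ.2
    rw [abs_of_neg h] at h1 h2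
    calc ENNReal.ofReal ρ ≤ ENNReal.ofReal (min (τ + ρ) (-l) - max (τ - ρ) (-(2 * l))) := by
          apply ENNReal.ofReal_le_ofReal
          rcases min_choice (τ + ρ) (-l) with h3 | h3 <;>
            rcases max_choice (τ - ρ) (-(2 * l)) with h4 | h4 <;> rw [h3, h4] <;> linarith
      _ = volume (Icc (max (τ - ρ) (-(2 * l))) (min (τ + ρ) (-l))) := (Real.volume_Icc).symm
      _ ≤ _ := by
          apply measure_mono
          rintro s ⟨h3, h4⟩
          have h5 := le_max_left (τ - ρ) (-(2 * l))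
          have h6 := le_max_right (τ - ρ) (-(2 * l))
          have h7 := min_le_left (τ + ρ) (-l)
          have h8 := min_le_right (τ + ρ) (-l)
          refine ⟨⟨?_, ?_⟩, by linarith, by linarith⟩
          · rw [abs_of_neg (by linarith)]; linarith
          · rw [abs_of_neg (by linarith)]; linarith

/-- Integrals over the part of a tube in a shell. -/
theorem piece_le {n : ℕ} {ρ l : ℝ} (hρ : 0 < ρ) (hl : ρ ≤ l) {F : E n → ℝ≥0∞} (hF : Measurable F)
    {e p : E n} (he : ‖e‖ = 1) :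
    ENNReal.ofReal ρ * ∫⁻ y in cyl ρ (shell l) e p, F y
      ≤ ∫⁻ s in shell l, Av (2 * ρ) F (p + s • e) := by
  set S : Set (ℝ × E n) := {q | ‖q.2 - (p + q.1 • e)‖ ≤ 2 * ρ} with hS
  have hSm : MeasurableSet S := measurableSet_le (by fun_prop) measurable_const
  have hAv : ∀ s : ℝ, Av (2 * ρ) F (p + s • e) = ∫⁻ y, S.indicator (fun q => F q.2) (s, y) := by
    intro s
    rw [Av, ← lintegral_indicator isClosed_closedBall.measurableSet]
    congr 1
  simp_rw [hAv]
  have hm : Measurable (S.indicator (fun q : ℝ × E n => F q.2)) :=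
    (hF.comp measurable_snd).indicator hSm
  rw [lintegral_lintegral_swap (f := fun s y => S.indicator (fun q : ℝ × E n => F q.2) (s, y))
    hm.aemeasurable, ← lintegral_const_mul' _ _ ENNReal.ofReal_ne_top]
  refine le_trans ?_ (setLIntegral_le_lintegral (cyl ρ (shell l) e p) _)
  apply setLIntegral_mono' (measurableSet_cyl ρ (measurableSet_shell l) e p)
  intro y hy
  obtain ⟨hy1, hy2⟩ := hy
  set τ : ℝ := inner ℝ (y - p) e with hτ
  have hsub : ∀ s ∈ shell l ∩ Icc (τ - ρ) (τ + ρ), (s, y) ∈ S := by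
    rintro s ⟨-, hs⟩
    show ‖y - (p + s • e)‖ ≤ 2 * ρ
    have e1 : y - (p + s • e) = ((y - p) - τ • e) + (τ - s) • e := by
      rw [sub_smul]; abel
    rw [e1]
    refine (norm_add_le _ _).trans ?_
    rw [norm_smul, he, mul_one, Real.norm_eq_abs]
    have : |τ - s| ≤ ρ := abs_le.2 ⟨by linarith [hs.2], by linarith [hs.1]⟩
    linarith
  calc ENNReal.ofReal ρ * F y ≤ volume (shell l ∩ Icc (τ - ρ) (τ + ρ)) * F y := by
        gcongr
        exact volume_shell_near hρ hl hy1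
    _ = ∫⁻ s in shell l ∩ Icc (τ - ρ) (τ + ρ), F y := by
        rw [setLIntegral_const, mul_comm]
    _ ≤ ∫⁻ s in shell l ∩ Icc (τ - ρ) (τ + ρ), S.indicator (fun q : ℝ × E n => F q.2) (s, y) := by
        apply setLIntegral_mono' ((measurableSet_shell l).inter measurableSet_Icc)
        intro s hs
        rw [indicator_of_mem (hsub s hs)]
    _ ≤ _ := lintegral_mono_set inter_subset_left

/-- Changing the direction. -/
theorem dir_change {n : ℕ} {ρ l : ℝ} {F : E n → ℝ≥0∞} {e e' p : E n}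
    (h : 2 * l * ‖e - e'‖ ≤ ρ) :
    ∫⁻ s in shell l, Av (2 * ρ) F (p + s • e) ≤ ∫⁻ s in shell l, Av (3 * ρ) F (p + s • e') := by
  apply setLIntegral_mono' (measurableSet_shell l)
  intro s hs
  have h1 : ‖(p + s • e) - (p + s • e')‖ ≤ ρ := by
    have e1 : (p + s • e) - (p + s • e') = s • (e - e') := by rw [smul_sub]; abel
    rw [e1, norm_smul, Real.norm_eq_abs]
    calc |s| * ‖e - e'‖ ≤ 2 * l * ‖e - e'‖ := by
          gcongr
          exact hs.2
      _ ≤ ρ := h
  have h2 := Av_mono_ball (r := 2 * ρ) F h1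
  have e2 : 2 * ρ + ρ = 3 * ρ := by ring
  rwa [e2] at h2

theorem lintegral_Av_sq {n : ℕ} {r : ℝ} (hr : 0 < r) {F : E n → ℝ≥0∞} (hF : Measurable F) :
    ∫⁻ x, Av r F x ^ 2 ≤ vB n r ^ 2 * ∫⁻ y, F y ^ 2 := by
  have h1 := lintegral_Phi_pow hr hF (le_refl 2)
  have h2 : ∀ x, Av r F x ^ 2 = vB n r ^ 2 * Phi r F x ^ 2 := by
    intro x
    rw [Phi, mul_pow, ← mul_assoc, ← mul_pow, ENNReal.mul_inv_cancel (vB_ne_zero n hr)
      (vB_ne_top n r), one_pow, one_mul]
  simp_rw [h2]
  rw [lintegral_const_mul' _ _ (ENNReal.pow_ne_top (vB_ne_top n r))]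
  gcongr

/-- Lower bound for the volume of the part of the cone over a cap. -/
theorem volume_capSet_ge (d : ℕ) : ∃ c : ℝ, 0 < c ∧ ∀ (s : ℝ) (e : E (d + 1)),
    0 < s → ‖e‖ = 1 → ENNReal.ofReal (c * s ^ d) ≤ volume (TH539.capSet s e) := by
  obtain ⟨c, hc, hvol⟩ := volume_tube d
  refine ⟨(2 ^ (d + 1))⁻¹ * (c * (1 / 16) ^ d), by positivity, ?_⟩
  intro s e hs he
  calc ENNReal.ofReal ((2 ^ (d + 1))⁻¹ * (c * (1 / 16) ^ d) * s ^ d)
      = ENNReal.ofReal ((2 ^ (d + 1))⁻¹) * ENNReal.ofReal (c * (s / 16) ^ d) := by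
        rw [← ENNReal.ofReal_mul (by positivity)]
        congr 1
        rw [div_pow, div_pow, one_pow]
        ring
    _ ≤ ENNReal.ofReal ((2 ^ (d + 1))⁻¹) * volume (TH539.tube (s / 16) e e) := by
        gcongr
        exact hvol _ _ _ (by positivity) he
    _ = volume (TH539.capSet s e) := (TH539.volume_capSet s e).symm

theorem measurableSet_capSet {d : ℕ} (s : ℝ) (e : E (d + 1)) :
    MeasurableSet (TH539.capSet s e) :=
  (measurable_const_smul (2:ℝ)) (TH539.measurableSet_tube _ _ _)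

theorem disjoint_capSet {d : ℕ} {s : ℝ} (hs : 0 < s) (hs1 : s ≤ 1) {e e' : E (d + 1)}
    (he : ‖e‖ = 1) (he' : ‖e'‖ = 1) (h : s ≤ ‖e - e'‖) :
    Disjoint (TH539.capSet s e) (TH539.capSet s e') := by
  rw [Set.disjoint_left]
  intro y hy hy'
  obtain ⟨-, -, h1⟩ := TH539.capSet_sub hs hs1 he hy
  obtain ⟨-, -, h2⟩ := TH539.capSet_sub hs hs1 he' hy'
  have h3 : ‖e - e'‖ < s := by
    have e1 : e - e' = (‖y‖⁻¹ • y - e') - (‖y‖⁻¹ • y - e) := by abel
    rw [e1]
    refine (norm_sub_le _ _).trans_lt ?_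
    linarith
  linarith

/-- Packing of separated directions in a cap. -/
theorem cap_packing (d : ℕ) : ∃ C : ℝ, 0 < C ∧ ∀ (δ η : ℝ), 0 < δ → δ ≤ 1 → 0 ≤ η →
    ∀ (ι : Type) (s : Finset ι) (e : ι → E (d + 1)) (e0 : E (d + 1)), ‖e0‖ = 1 →
    (∀ i ∈ s, ‖e i‖ = 1) → (∀ i ∈ s, ∀ j ∈ s, i ≠ j → δ ≤ ‖e i - e j‖) →
    (∀ i ∈ s, ‖e i - e0‖ ≤ η) → (s.card : ℝ) ≤ C * ((δ + η) / δ) ^ d := by
  obtain ⟨c, hc, hcap⟩ := volume_capSet_ge d
  refine ⟨2 * 2 ^ d / c, by positivity, ?_⟩
  intro δ η hδ hδ1 hη ι s e e0 he0 he hsep hcl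
  have hsub : ∀ i ∈ s, TH539.capSet δ (e i) ⊆ cyl (δ + η) (Icc (-1) 1) e0 0 := by
    intro i hi y hy
    obtain ⟨h1, h2, h3⟩ := TH539.capSet_sub hδ hδ1 (he i hi) hy
    have h4 : ‖‖y‖⁻¹ • y - e0‖ ≤ δ + η := by
      have e1 : ‖y‖⁻¹ • y - e0 = (‖y‖⁻¹ • y - e i) + (e i - e0) := by abel
      rw [e1]
      refine (norm_add_le _ _).trans ?_
      linarith [hcl i hi]
    refine ⟨?_, ?_⟩
    · rw [sub_zero, mem_Icc, ← abs_le]
      refine (abs_real_inner_le_norm _ _).trans ?_
      rw [he0, mul_one]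
      exact h2.le
    · rw [sub_zero]
      have h5 : ‖y - ‖y‖ • e0‖ ≤ δ + η := by
        have e1 : y - ‖y‖ • e0 = ‖y‖ • (‖y‖⁻¹ • y - e0) := by
          rw [smul_sub, smul_smul, mul_inv_cancel₀ h1.ne', one_smul]
        rw [e1, norm_smul, norm_norm]
        calc ‖y‖ * ‖‖y‖⁻¹ • y - e0‖ ≤ 1 * (δ + η) := by gcongr
          _ = _ := one_mul _
      refine le_trans ?_ h5
      have h6 : ‖y - (inner ℝ y e0 : ℝ) • e0‖ ^ 2 ≤ ‖y - ‖y‖ • e0‖ ^ 2 := by
        have e1 : ∀ a : ℝ, ‖y - a • e0‖ ^ 2 = ‖y‖ ^ 2 - 2 * a * inner ℝ y e0 + a ^ 2 := by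
          intro a
          rw [norm_sub_sq_real, inner_smul_right, norm_smul, he0, mul_one, Real.norm_eq_abs,
            sq_abs]
          ring
        rw [e1, e1]
        nlinarith [sq_nonneg (‖y‖ - (inner ℝ y e0 : ℝ))]
      exact le_of_sq_le_sq h6 (norm_nonneg _)
  have hdisj : Set.PairwiseDisjoint (s : Set ι) (fun i => TH539.capSet δ (e i)) := by
    intro i hi j hj hij
    exact disjoint_capSet hδ hδ1 (he i hi) (he j hj) (hsep i hi j hj hij)
  have h1 : (s.card : ℝ≥0∞) * ENNReal.ofReal (c * δ ^ d)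
      ≤ ENNReal.ofReal (2 * 1 * (2 * (δ + η)) ^ d) := by
    calc (s.card : ℝ≥0∞) * ENNReal.ofReal (c * δ ^ d)
        = ∑ i ∈ s, ENNReal.ofReal (c * δ ^ d) := by rw [Finset.sum_const, nsmul_eq_mul]
      _ ≤ ∑ i ∈ s, volume (TH539.capSet δ (e i)) :=
          Finset.sum_le_sum (fun i hi => hcap δ (e i) hδ (he i hi))
      _ = volume (⋃ i ∈ s, TH539.capSet δ (e i)) :=
          (measure_biUnion_finset hdisj (fun i _ => measurableSet_capSet δ (e i))).symm
      _ ≤ volume (cyl (δ + η) (Icc (-1) 1) e0 0) := by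
          apply measure_mono
          exact iUnion₂_subset hsub
      _ ≤ _ := volume_cyl_le (by linarith) one_pos he0
  have h2 : (s.card : ℝ) * (c * δ ^ d) ≤ 2 * 1 * (2 * (δ + η)) ^ d := by
    have e1 : (s.card : ℝ≥0∞) = ENNReal.ofReal (s.card : ℝ) := by simp
    rw [e1, ← ENNReal.ofReal_mul (by positivity)] at h1
    exact (ENNReal.ofReal_le_ofReal_iff (by positivity)).1 h1
  have h3 : (s.card : ℝ) ≤ 2 * 1 * (2 * (δ + η)) ^ d / (c * δ ^ d) := by
    rw [le_div_iff₀ (by positivity)]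
    exact h2
  refine h3.trans (le_of_eq ?_)
  rw [div_pow, mul_pow]
  field_simp

/-- Greedy colouring. -/
theorem greedy_colour {ι : Type} [Fintype ι] [DecidableEq ι] (r : ι → ι → Prop) [DecidableRel r]
    (hr : ∀ i j, r i j → r j i) (K : ℕ) (hK : 0 < K)
    (hdeg : ∀ i, (Finset.univ.filter (fun j => j ≠ i ∧ r i j)).card < K) :
    ∃ c : ι → Fin K, ∀ i j, i ≠ j → r i j → c i ≠ c j := by
  have key : ∀ s : Finset ι, ∃ c : ι → Fin K, ∀ i ∈ s, ∀ j ∈ s, i ≠ j → r i j → c i ≠ c j := by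
    intro s
    induction s using Finset.induction_on with
    | empty => exact ⟨fun _ => ⟨0, hK⟩, by simp⟩
    | insert a s ha ih =>
      obtain ⟨c, hc⟩ := ih
      set B : Finset (Fin K) := (Finset.univ.filter (fun j => j ≠ a ∧ r a j)).image c with hB
      have hBc : B.card < Fintype.card (Fin K) := by
        rw [Fintype.card_fin]
        exact Finset.card_image_le.trans_lt (hdeg a)
      obtain ⟨k, hk⟩ : ∃ k, k ∉ B := by
        by_contra h
        push Not at h
        have : B = Finset.univ := Finset.eq_univ_iff_forall.2 h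
        rw [this, Finset.card_univ] at hBc
        exact lt_irrefl _ hBc
      refine ⟨Function.update c a k, ?_⟩
      intro i hi j hj hij hrij
      rcases Finset.mem_insert.1 hi with rfl | hi
      · rcases Finset.mem_insert.1 hj with rfl | hj
        · exact absurd rfl hij
        · rw [Function.update_self, Function.update_of_ne hij.symm]
          intro h
          apply hk
          rw [hB, Finset.mem_image]
          exact ⟨j, Finset.mem_filter.2 ⟨Finset.mem_univ _, hij.symm, hrij⟩, h.symm⟩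
      · rcases Finset.mem_insert.1 hj with rfl | hj
        · rw [Function.update_self, Function.update_of_ne hij]
          intro h
          apply hk
          rw [hB, Finset.mem_image]
          exact ⟨i, Finset.mem_filter.2 ⟨Finset.mem_univ _, hij, hr _ _ hrij⟩, h⟩
        · have hia : i ≠ a := fun h => ha (h ▸ hi)
          have hja : j ≠ a := fun h => ha (h ▸ hj)
          rw [Function.update_of_ne hia, Function.update_of_ne hja]
          exact hc i hi j hj hij hrij
  obtain ⟨c, hc⟩ := key Finset.univ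
  exact ⟨c, fun i j => hc i (Finset.mem_univ _) j (Finset.mem_univ _)⟩

end Pool.Agent.K3h46.TMC
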