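import Pool.Agent.K3h46.TMC.Geo
import Pool.Agent.H810R3.Tub.Bounds

set_option autoImplicit false
set_option linter.unusedSectionVars false

/-!
The square function estimate for the parts of the tubes in a shell.
-/

open MeasureTheory Set Filter Topology ENNReal NNReal Metric

namespace Pool.Agent.K3h46.TMC

open Pool.Agent.H742R2.Kk
open Pool.Agent.W767.Kc

/-- The estimate for separated directions. -/
theorem stepA (d : ℕ) (hd : 1 ≤ d) : ∃ C : ℝ≥0∞, C ≠ ∞ ∧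
    ∀ (N : ℕ) (γ : ℝ → E (d + 1)), Continuous γ → OrderLE N γ →
    ∀ (ρ l : ℝ), 0 < ρ → ρ ≤ l →
    ∀ (ι : Type) (s : Finset ι) (e : ι → E (d + 1)) (t : ι → ℝ), (∀ i ∈ s, ‖e i‖ = 1) →
    (∀ i ∈ s, ∀ j ∈ s, i ≠ j → ρ / l ≤ ‖e i - e j‖) → ∀ J : ℕ, s.card ≤ 2 ^ J →
    ∀ H : E (d + 1) → ℝ≥0∞, Measurable H →
    (∑ i ∈ s, ∫⁻ y in cyl ρ (shell l) (e i) (γ (t i)), H y) ^ 2
      ≤ C * ((s.card : ℝ≥0∞) * (((J:ℝ≥0∞) + 1) ^ 2 * (N + 1)))
        * (ENNReal.ofReal (l * ρ ^ d) * ∫⁻ y, H y ^ 2) := by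
  obtain ⟨C1, hC1, hS⟩ := sph_scale_fin d hd
  obtain ⟨c, hc, hcap⟩ := volume_capSet_ge d
  refine ⟨C1 * vB (d + 1) 1 ^ 2 * ENNReal.ofReal (c⁻¹ * 9 ^ (d + 1)), ENNReal.mul_ne_top
    (ENNReal.mul_ne_top hC1 (ENNReal.pow_ne_top (vB_ne_top _ _))) ENNReal.ofReal_ne_top, ?_⟩
  intro N γ hγ hN ρ l hρ hl ι s e t he hsep J hJ H hH
  classical
  have hl0 : 0 < l := by linarith
  set s0 : ℝ := ρ / l with hs0
  have hs0p : 0 < s0 := by positivity
  have hs01 : s0 ≤ 1 := by rw [hs0, div_le_one hl0]; exact hl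
  set P : ι → ℝ≥0∞ := fun i => ∫⁻ y in cyl ρ (shell l) (e i) (γ (t i)), H y with hP
  set A : ι → ℝ≥0∞ := fun i => ∫⁻ u in shell l, Av (2 * ρ) H (γ (t i) + u • e i) with hA
  have hTJ : (s.image t).card ≤ 2 ^ J := Finset.card_image_le.trans hJ
  obtain ⟨M, hMm, hMle, hMint⟩ := hS N γ hγ hN (Av (3 * ρ) H) (measurable_Av _ hH) l hl0
    (s.image t) J hTJ
  set X := ∫⁻ y, H y ^ 2 with hX
  have h1 : ∀ i ∈ s, ENNReal.ofReal ρ * P i ≤ A i := fun i hi => piece_le hρ hl hH (he i hi)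
  have h2 : ∀ i ∈ s, ∀ y ∈ TH539.capSet s0 (e i), A i ^ 2 ≤ M (‖y‖⁻¹ • y) := by
    intro i hi y hy
    obtain ⟨h3, h4, h5⟩ := TH539.capSet_sub hs0p hs01 (he i hi) hy
    have h6 : 2 * l * ‖e i - ‖y‖⁻¹ • y‖ ≤ ρ := by
      rw [norm_sub_rev]
      calc 2 * l * ‖‖y‖⁻¹ • y - e i‖ ≤ 2 * l * (s0 / 2) := by gcongr
        _ = ρ := by rw [hs0]; field_simp
    have h7 : ‖‖y‖⁻¹ • y‖ = 1 := by
      rw [norm_smul, norm_inv, norm_norm, inv_mul_cancel₀ h3.ne']
    refine (pow_le_pow_left' (dir_change h6) 2).trans ?_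
    exact hMle _ h7 (t i) (Finset.mem_image_of_mem t hi)
  have hdisj : Set.PairwiseDisjoint (s : Set ι) (fun i => TH539.capSet s0 (e i)) := by
    intro i hi j hj hij
    exact disjoint_capSet hs0p hs01 (he i hi) (he j hj) (hsep i hi j hj hij)
  have h3 : ENNReal.ofReal (c * s0 ^ d) * ∑ i ∈ s, A i ^ 2
      ≤ ∫⁻ x in closedBall (0 : E (d + 1)) 1, M (‖x‖⁻¹ • x) := by
    rw [Finset.mul_sum]
    calc ∑ i ∈ s, ENNReal.ofReal (c * s0 ^ d) * A i ^ 2
        ≤ ∑ i ∈ s, ∫⁻ x in TH539.capSet s0 (e i), M (‖x‖⁻¹ • x) := by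
          apply Finset.sum_le_sum
          intro i hi
          calc ENNReal.ofReal (c * s0 ^ d) * A i ^ 2
              ≤ volume (TH539.capSet s0 (e i)) * A i ^ 2 := by
                gcongr
                exact hcap s0 (e i) hs0p (he i hi)
            _ = ∫⁻ x in TH539.capSet s0 (e i), A i ^ 2 := by
                rw [setLIntegral_const, mul_comm]
            _ ≤ _ := setLIntegral_mono' (measurableSet_capSet s0 (e i)) (h2 i hi)
      _ = ∫⁻ x in ⋃ i ∈ s, TH539.capSet s0 (e i), M (‖x‖⁻¹ • x) :=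
          (lintegral_biUnion_finset hdisj (fun i _ => measurableSet_capSet s0 (e i)) _).symm
      _ ≤ _ := by
          apply lintegral_mono_set
          apply iUnion₂_subset
          intro i hi y hy
          obtain ⟨-, h4, -⟩ := TH539.capSet_sub hs0p hs01 (he i hi) hy
          rw [mem_closedBall, dist_zero_right]
          exact h4.le
  have h4 : (ENNReal.ofReal ρ * ∑ i ∈ s, P i) ^ 2 ≤ s.card * ∑ i ∈ s, A i ^ 2 := by
    rw [Finset.mul_sum]
    refine (pow_le_pow_left' (Finset.sum_le_sum h1) 2).trans ?_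
    have := sum_pow_le s A (n := 2) (by norm_num)
    simpa using this
  have h5 : ∫⁻ x, Av (3 * ρ) H x ^ 2
      ≤ ENNReal.ofReal ((3 * ρ) ^ (2 * (d + 1))) * vB (d + 1) 1 ^ 2 * X := by
    refine (lintegral_Av_sq (by positivity) hH).trans (le_of_eq ?_)
    rw [vB_eq (d + 1) (by positivity : (0:ℝ) ≤ 3 * ρ), mul_pow, ← ENNReal.ofReal_pow (by positivity),
      ← pow_mul, mul_comm (d + 1) 2]
  set Q : ℝ≥0∞ := C1 * (((J:ℝ≥0∞) + 1) ^ 2 * (N + 1)) with hQ
  have h6 : ENNReal.ofReal (c * s0 ^ d) * (ENNReal.ofReal ρ * ∑ i ∈ s, P i) ^ 2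
      ≤ s.card * (Q * (ENNReal.ofReal (l * (l ^ d)⁻¹) *
        (ENNReal.ofReal ((3 * ρ) ^ (2 * (d + 1))) * vB (d + 1) 1 ^ 2 * X))) := by
    calc ENNReal.ofReal (c * s0 ^ d) * (ENNReal.ofReal ρ * ∑ i ∈ s, P i) ^ 2
        ≤ ENNReal.ofReal (c * s0 ^ d) * (s.card * ∑ i ∈ s, A i ^ 2) := by gcongr
      _ = s.card * (ENNReal.ofReal (c * s0 ^ d) * ∑ i ∈ s, A i ^ 2) := by ring
      _ ≤ s.card * (Q * (ENNReal.ofReal (l * (l ^ d)⁻¹) * ∫⁻ x, Av (3 * ρ) H x ^ 2)) :=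
          mul_le_mul_right (h3.trans hMint) _
      _ ≤ _ := by gcongr
  set a : ℝ := (c * s0 ^ d) * ρ ^ 2 with ha
  have ha0 : 0 < a := by positivity
  have h7 : ENNReal.ofReal (c * s0 ^ d) * (ENNReal.ofReal ρ * ∑ i ∈ s, P i) ^ 2
      = ENNReal.ofReal a * (∑ i ∈ s, P i) ^ 2 := by
    rw [ha, mul_pow, ← ENNReal.ofReal_pow hρ.le, ← mul_assoc, ← ENNReal.ofReal_mul (by positivity)]
  rw [h7] at h6
  have h8 : ENNReal.ofReal a⁻¹ * ENNReal.ofReal a = 1 := by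
    rw [← ENNReal.ofReal_mul (by positivity), inv_mul_cancel₀ ha0.ne', ENNReal.ofReal_one]
  calc (∑ i ∈ s, P i) ^ 2 = ENNReal.ofReal a⁻¹ * (ENNReal.ofReal a * (∑ i ∈ s, P i) ^ 2) := by
        rw [← mul_assoc, h8, one_mul]
    _ ≤ ENNReal.ofReal a⁻¹ * (s.card * (Q * (ENNReal.ofReal (l * (l ^ d)⁻¹) *
        (ENNReal.ofReal ((3 * ρ) ^ (2 * (d + 1))) * vB (d + 1) 1 ^ 2 * X)))) := by gcongr
    _ = (ENNReal.ofReal a⁻¹ * ENNReal.ofReal (l * (l ^ d)⁻¹) *
          ENNReal.ofReal ((3 * ρ) ^ (2 * (d + 1)))) * (s.card * Q * vB (d + 1) 1 ^ 2 * X) := by ring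
    _ = (ENNReal.ofReal (c⁻¹ * 9 ^ (d + 1)) * ENNReal.ofReal (l * ρ ^ d)) *
          (s.card * Q * vB (d + 1) 1 ^ 2 * X) := by
        congr 1
        rw [← ENNReal.ofReal_mul (by positivity), ← ENNReal.ofReal_mul (by positivity),
          ← ENNReal.ofReal_mul (by positivity)]
        congr 1
        rw [ha, hs0, div_pow, mul_pow, pow_mul 3 2 (d + 1)]
        have e1 : (3:ℝ) ^ 2 = 9 := by norm_num
        rw [e1]
        have e2 : ρ ^ (2 * (d + 1)) = ρ ^ d * ρ ^ d * ρ ^ 2 := by ring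
        rw [e2]
        field_simp
    _ = _ := by rw [hQ]; ring

theorem clog_bound {a : ℝ} (ha : 0 < a) : ∃ C : ℝ, 0 < C ∧ ∀ m : ℕ, 1 ≤ m →
    (Nat.clog 2 m : ℝ) + 1 ≤ C * (m:ℝ) ^ a := by
  refine ⟨2 + 2 / a, by positivity, ?_⟩
  intro m hm
  have hm0 : (1:ℝ) ≤ m := by exact_mod_cast hm
  have hma : (1:ℝ) ≤ (m:ℝ) ^ a := Real.one_le_rpow hm0 ha.le
  have hlog2 : 1 / 2 < Real.log 2 := by
    have := Real.log_two_gt_d9
    linarith
  have h1 : (Nat.clog 2 m : ℝ) ≤ 1 + 2 * Real.log m := by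
    rcases Nat.lt_or_ge 1 m with h | h
    · have h2 := Nat.pow_pred_clog_lt_self (b := 2) (by norm_num) h
      have h3 : (2:ℝ) ^ ((Nat.clog 2 m).pred) < m := by exact_mod_cast h2
      have h4 : ((Nat.clog 2 m).pred : ℝ) * Real.log 2 ≤ Real.log m := by
        rw [← Real.log_pow]
        exact Real.log_le_log (by positivity) h3.le
      have h5 : (Nat.clog 2 m : ℝ) ≤ (Nat.clog 2 m).pred + 1 := by
        have : Nat.clog 2 m ≤ (Nat.clog 2 m).pred + 1 := by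
          rw [Nat.pred_eq_sub_one]; omega
        exact_mod_cast this
      have h6 : (0:ℝ) ≤ ((Nat.clog 2 m).pred : ℝ) := by positivity
      nlinarith
    · have : m = 1 := by omega
      subst this
      simp
  have h2 : Real.log m ≤ (m:ℝ) ^ a / a := Real.log_le_rpow_div (by positivity) ha
  calc (Nat.clog 2 m : ℝ) + 1 ≤ 2 + 2 * ((m:ℝ) ^ a / a) := by linarith
    _ ≤ 2 * (m:ℝ) ^ a + 2 * ((m:ℝ) ^ a / a) := by linarith
    _ = _ := by ring

/-- The sum of the indicator functions of the parts of the tubes. -/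
noncomputable def Fs {n : ℕ} {ι : Type} [Fintype ι] (ρ : ℝ) (S : Set ℝ) (e p : ι → E n)
    (y : E n) : ℝ≥0∞ := ∑ i, (cyl ρ S (e i) (p i)).indicator (fun _ => (1:ℝ≥0∞)) y

theorem measurable_Fs {n : ℕ} {ι : Type} [Fintype ι] (ρ : ℝ) {S : Set ℝ} (hS : MeasurableSet S)
    (e p : ι → E n) : Measurable (Fs ρ S e p) := by
  apply Finset.measurable_fun_sum
  intro i _
  exact measurable_const.indicator (measurableSet_cyl ρ hS _ _)

theorem Fs_le {n : ℕ} {ι : Type} [Fintype ι] (ρ : ℝ) (S : Set ℝ) (e p : ι → E n) (y : E n) :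
    Fs ρ S e p y ≤ Fintype.card ι := by
  calc Fs ρ S e p y ≤ ∑ i : ι, (1:ℝ≥0∞) :=
        Finset.sum_le_sum (fun i _ => indicator_le_self' (fun _ _ => zero_le) y)
    _ = _ := by simp

theorem lintegral_Fs_le {d : ℕ} {ι : Type} [Fintype ι] {ρ L : ℝ} (hρ : 0 < ρ) (hL : 0 < L)
    {S : Set ℝ} (hSm : MeasurableSet S) (hS : S ⊆ Icc (-L) L) {e p : ι → E (d + 1)}
    (he : ∀ i, ‖e i‖ = 1) :
    ∫⁻ y, Fs ρ S e p y ≤ ENNReal.ofReal (Fintype.card ι * (2 * L * (2 * ρ) ^ d)) := by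
  unfold Fs
  rw [lintegral_finsetSum _ (fun i _ => measurable_const.indicator (measurableSet_cyl ρ hSm _ _))]
  calc ∑ i, ∫⁻ y, (cyl ρ S (e i) (p i)).indicator (fun _ => (1:ℝ≥0∞)) y
      ≤ ∑ i : ι, ENNReal.ofReal (2 * L * (2 * ρ) ^ d) := by
        apply Finset.sum_le_sum
        intro i _
        rw [lintegral_indicator (measurableSet_cyl ρ hSm _ _), setLIntegral_one]
        exact (measure_mono (cyl_mono le_rfl hS _ _)).trans (volume_cyl_le hρ hL (he i))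
    _ = _ := by
        rw [Finset.sum_const, Finset.card_univ, nsmul_eq_mul,
          ENNReal.ofReal_mul (p := (Fintype.card ι : ℝ)) (by positivity), ENNReal.ofReal_natCast]

theorem lintegral_Fs_mul {n : ℕ} {ι : Type} [Fintype ι] {ρ : ℝ} {S : Set ℝ}
    (hSm : MeasurableSet S) {e p : ι → E n} {H : E n → ℝ≥0∞} (hH : Measurable H) :
    ∫⁻ y, Fs ρ S e p y * H y = ∑ i, ∫⁻ y in cyl ρ S (e i) (p i), H y := by
  unfold Fs
  have h1 : ∀ y, (∑ i, (cyl ρ S (e i) (p i)).indicator (fun _ => (1:ℝ≥0∞)) y) * H y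
      = ∑ i, (cyl ρ S (e i) (p i)).indicator H y := by
    intro y
    rw [Finset.sum_mul]
    apply Finset.sum_congr rfl
    intro i _
    by_cases h : y ∈ cyl ρ S (e i) (p i)
    · rw [indicator_of_mem h, indicator_of_mem h, one_mul]
    · rw [indicator_of_notMem h, indicator_of_notMem h, zero_mul]
  simp_rw [h1]
  rw [lintegral_finsetSum _ (fun i _ => hH.indicator (measurableSet_cyl ρ hSm _ _))]
  apply Finset.sum_congr rfl
  intro i _
  rw [lintegral_indicator (measurableSet_cyl ρ hSm _ _)]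

theorem shell_sub_Icc {l : ℝ} : shell l ⊆ Icc (-(2 * l)) (2 * l) := by
  rintro s ⟨-, h⟩
  exact abs_le.1 h

/-- The estimate for `δ`-separated directions at scale `l`. -/
theorem stepB (d : ℕ) (hd : 1 ≤ d) {θ : ℝ} (hθ : 1 / 2 < θ) (hθ1 : θ < 1) : ∃ C : ℝ, 0 < C ∧
    ∀ (N : ℕ) (γ : ℝ → E (d + 1)), Continuous γ → OrderLE N γ →
    ∀ (δ ρ l B : ℝ), 0 < δ → δ ≤ 1 → 0 < ρ → ρ ≤ l → (δ + ρ / l) / δ ≤ B →
    ∀ (ι : Type) [Fintype ι] (e : ι → E (d + 1)) (t : ι → ℝ), (∀ i, ‖e i‖ = 1) →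
    (∀ i j, i ≠ j → δ ≤ ‖e i - e j‖) →
    ∫⁻ y, Fs ρ (shell l) e (fun i => γ (t i)) y ^ 2 ≤
      ENNReal.ofReal (C * (N + 1) * ((B ^ d) ^ (2 - 2 * θ) * (Fintype.card ι : ℝ) ^ (2 * θ))
        * (l * ρ ^ d)) := by
  obtain ⟨CA, hCA, hA⟩ := stepA d hd
  obtain ⟨C1, hC1, hpack⟩ := cap_packing d
  obtain ⟨Cc, hCc, hclog⟩ := clog_bound (a := θ - 1 / 2) (by linarith)
  refine ⟨(CA.toReal + 1) * (4 * Cc ^ 2 * (C1 + 1) ^ (2 - 2 * θ)), by positivity, ?_⟩
  intro N γ hγ hN δ ρ l B hδ hδ1 hρ hl hB ι _ e t he hsep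
  classical
  have hl0 : 0 < l := by linarith
  have hB1 : 1 ≤ B := by
    refine le_trans ?_ hB
    rw [le_div_iff₀ hδ, one_mul]
    have : 0 ≤ ρ / l := by positivity
    linarith
  have hBd : 1 ≤ B ^ d := one_le_pow₀ hB1
  set F : E (d + 1) → ℝ≥0∞ := Fs ρ (shell l) e (fun i => γ (t i)) with hF
  have hFm : Measurable F := measurable_Fs ρ (measurableSet_shell l) _ _
  set Y : ℝ≥0∞ := ∫⁻ y, F y ^ 2 with hY
  rcases isEmpty_or_nonempty ι with hι | hι
  · have h0 : ∀ y, F y = 0 := by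
      intro y
      simp [hF, Fs]
    have : Y = 0 := by
      rw [hY]
      simp [h0]
    rw [this]
    exact zero_le
  have hM0 : 0 < (Fintype.card ι : ℝ) := by exact_mod_cast Fintype.card_pos
  have hYt : Y ≠ ∞ := by
    have h1 : Y ≤ Fintype.card ι * ∫⁻ y, F y := by
      rw [← lintegral_const_mul' _ _ (ENNReal.natCast_ne_top _)]
      apply lintegral_mono
      intro y
      simp only
      rw [sq]
      gcongr
      exact Fs_le _ _ _ _ _
    have h2 := lintegral_Fs_le (p := fun i => γ (t i)) hρ (by positivity : 0 < 2 * l)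
      (measurableSet_shell l) shell_sub_Icc he
    refine (h1.trans_lt ?_).ne
    exact ENNReal.mul_lt_top (ENNReal.natCast_lt_top _) (h2.trans_lt ENNReal.ofReal_lt_top)
  -- colouring
  set K : ℕ := ⌊C1 * B ^ d⌋₊ + 1 with hK
  have hKle : (K : ℝ) ≤ (C1 + 1) * B ^ d := by
    have h1 : (⌊C1 * B ^ d⌋₊ : ℝ) ≤ C1 * B ^ d := Nat.floor_le (by positivity)
    rw [hK]
    push_cast
    nlinarith
  obtain ⟨c, hc⟩ := greedy_colour (fun i j => ‖e i - e j‖ < ρ / l)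
    (fun i j h => by rwa [norm_sub_rev] at h) K (Nat.succ_pos _) (by
      intro i
      rw [hK]
      apply Nat.lt_succ_of_le
      apply Nat.le_floor
      refine (hpack δ (ρ / l) hδ hδ1 (by positivity) ι _ e (e i) (he i) (fun j _ => he j)
        (fun j _ k _ hjk => hsep j k hjk) ?_).trans ?_
      · intro j hj
        have := (Finset.mem_filter.1 hj).2.2
        rw [norm_sub_rev]
        exact this.le
      · gcongr)
  set sk : Fin K → Finset ι := fun k => Finset.univ.filter (fun i => c i = k) with hsk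
  set m : Fin K → ℕ := fun k => (sk k).card with hm
  set x : Fin K → ℝ≥0∞ := fun k =>
    ∑ i ∈ sk k, ∫⁻ y in cyl ρ (shell l) (e i) (γ (t i)), F y with hx
  have hYx : Y = ∑ k, x k := by
    have h1 : Y = ∑ i, ∫⁻ y in cyl ρ (shell l) (e i) (γ (t i)), F y := by
      rw [hY, ← lintegral_Fs_mul (measurableSet_shell l) hFm]
      apply lintegral_congr
      intro y
      rw [sq]
    rw [h1, hx]
    exact (Finset.sum_fiberwise _ _ _).symm
  set Z : ℝ≥0∞ := CA * (N + 1) * (ENNReal.ofReal (l * ρ ^ d) * Y) with hZ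
  have hxk : ∀ k, x k ≤ ENNReal.ofReal (Cc * (m k : ℝ) ^ θ) * Z ^ (1 / 2 : ℝ) := by
    intro k
    rcases Nat.eq_zero_or_pos (m k) with h0 | h0
    · have : sk k = ∅ := Finset.card_eq_zero.1 h0
      simp [hx, this]
    have h1 := hA N γ hγ hN ρ l hρ hl ι (sk k) e t (fun i _ => he i) (by
      intro i hi j hj hij
      by_contra hcon
      push Not at hcon
      have h2 := (Finset.mem_filter.1 hi).2
      have h3 := (Finset.mem_filter.1 hj).2
      exact hc i j hij hcon (h2.trans h3.symm)) (Nat.clog 2 (m k))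
      (Nat.le_pow_clog (by norm_num) _) F hFm
    have hm1 : (1:ℝ) ≤ m k := by exact_mod_cast h0
    have h2 : ((m k : ℝ≥0∞) * (((Nat.clog 2 (m k) : ℝ≥0∞) + 1) ^ 2))
        ≤ ENNReal.ofReal ((Cc * (m k : ℝ) ^ θ) ^ 2) := by
      have e1 : (m k : ℝ≥0∞) = ENNReal.ofReal (m k : ℝ) := by simp
      have e2 : ((Nat.clog 2 (m k) : ℝ≥0∞) + 1) = ENNReal.ofReal ((Nat.clog 2 (m k) : ℝ) + 1) := by
        rw [ENNReal.ofReal_add (by positivity) (by norm_num)]; simp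
      rw [e1, e2, ← ENNReal.ofReal_pow (by positivity), ← ENNReal.ofReal_mul (by positivity)]
      apply ENNReal.ofReal_le_ofReal
      have h3 := hclog (m k) h0
      have e3 : (m k : ℝ) ^ θ = (m k : ℝ) ^ (1 / 2 : ℝ) * (m k : ℝ) ^ (θ - 1 / 2) := by
        rw [← Real.rpow_add (by linarith)]
        congr 1
        ring
      have e4 : ((m k : ℝ) ^ (1 / 2 : ℝ)) ^ 2 = m k := by
        rw [← Real.rpow_natCast, ← Real.rpow_mul (by linarith)]
        norm_num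
      calc (m k : ℝ) * ((Nat.clog 2 (m k) : ℝ) + 1) ^ 2
          ≤ (m k : ℝ) * (Cc * (m k : ℝ) ^ (θ - 1 / 2)) ^ 2 := by gcongr
        _ = (Cc * (m k : ℝ) ^ θ) ^ 2 := by
            rw [e3]
            nth_rewrite 1 [← e4]
            ring
    have h3 : x k ^ 2 ≤ (ENNReal.ofReal (Cc * (m k : ℝ) ^ θ) * Z ^ (1 / 2 : ℝ)) ^ 2 := by
      have e1 : (Z ^ (1 / 2 : ℝ)) ^ 2 = Z := by
        rw [← ENNReal.rpow_natCast, ← ENNReal.rpow_mul]
        norm_num
      rw [mul_pow, e1, ← ENNReal.ofReal_pow (by positivity)]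
      refine h1.trans ?_
      calc CA * (((sk k).card : ℝ≥0∞) * (((Nat.clog 2 (m k) : ℝ≥0∞) + 1) ^ 2 * (N + 1)))
            * (ENNReal.ofReal (l * ρ ^ d) * ∫⁻ y, F y ^ 2)
          = ((m k : ℝ≥0∞) * (((Nat.clog 2 (m k) : ℝ≥0∞) + 1) ^ 2)) * Z := by
            rw [hZ, hm]; ring
        _ ≤ _ := by gcongr
    exact (ENNReal.pow_le_pow_left_iff (by norm_num)).1 h3
  have hsum : ∑ k, (m k : ℝ) ^ θ ≤ 2 * (((C1 + 1) * B ^ d) ^ (1 - θ) * (Fintype.card ι : ℝ) ^ θ) := by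
    apply Pool.Agent.H810R3.Tub.sum_rpow_le Finset.univ (fun k => (m k : ℝ))
      (fun _ _ => by positivity) _ hM0 _ (by positivity) (by linarith) hθ1
    · have h1 : ∑ k, m k = Fintype.card ι := by
        rw [← Finset.card_univ]
        exact (Finset.card_eq_sum_card_fiberwise (fun i _ => Finset.mem_univ (c i))).symm
      exact_mod_cast h1
    · simpa using hKle
  have hfin : Y ≤ ENNReal.ofReal (Cc * (2 * (((C1 + 1) * B ^ d) ^ (1 - θ)
      * (Fintype.card ι : ℝ) ^ θ))) * Z ^ (1 / 2 : ℝ) := by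
    calc Y = ∑ k, x k := hYx
      _ ≤ ∑ k, ENNReal.ofReal (Cc * (m k : ℝ) ^ θ) * Z ^ (1 / 2 : ℝ) :=
          Finset.sum_le_sum (fun k _ => hxk k)
      _ = ENNReal.ofReal (Cc * ∑ k, (m k : ℝ) ^ θ) * Z ^ (1 / 2 : ℝ) := by
          rw [← Finset.sum_mul, Finset.mul_sum,
            ENNReal.ofReal_sum_of_nonneg (fun k _ => by positivity)]
      _ ≤ _ := by gcongr
  set M : ℝ := (Fintype.card ι : ℝ) with hM
  set a : ℝ := Cc * (2 * (((C1 + 1) * B ^ d) ^ (1 - θ) * M ^ θ)) with ha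
  have ha0 : 0 ≤ a := by positivity
  have hsq : Y * Y ≤ (ENNReal.ofReal (a ^ 2) * (CA * (N + 1) * ENNReal.ofReal (l * ρ ^ d))) * Y := by
    have e1 : (Z ^ (1 / 2 : ℝ)) ^ 2 = Z := by
      rw [← ENNReal.rpow_natCast, ← ENNReal.rpow_mul]
      norm_num
    calc Y * Y = Y ^ 2 := (sq Y).symm
      _ ≤ (ENNReal.ofReal a * Z ^ (1 / 2 : ℝ)) ^ 2 := pow_le_pow_left' hfin 2
      _ = ENNReal.ofReal (a ^ 2) * Z := by
          rw [mul_pow, e1, ← ENNReal.ofReal_pow ha0]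
      _ = _ := by rw [hZ]; ring
  have hY2 : Y ≤ ENNReal.ofReal (a ^ 2) * (CA * (N + 1) * ENNReal.ofReal (l * ρ ^ d)) := by
    rcases eq_or_ne Y 0 with h0 | h0
    · rw [h0]; exact zero_le
    · exact (ENNReal.mul_le_mul_iff_left h0 hYt).1 hsq
  refine hY2.trans ?_
  have e2 : CA ≤ ENNReal.ofReal (CA.toReal + 1) := by
    calc CA = ENNReal.ofReal CA.toReal := (ENNReal.ofReal_toReal hCA).symm
      _ ≤ _ := ENNReal.ofReal_le_ofReal (by linarith)
  have e3 : ((N:ℝ≥0∞) + 1) = ENNReal.ofReal ((N:ℝ) + 1) := by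
    rw [ENNReal.ofReal_add (by positivity) (by norm_num)]; simp
  rw [e3]
  calc ENNReal.ofReal (a ^ 2) * (CA * ENNReal.ofReal ((N:ℝ) + 1) * ENNReal.ofReal (l * ρ ^ d))
      ≤ ENNReal.ofReal (a ^ 2) * (ENNReal.ofReal (CA.toReal + 1) * ENNReal.ofReal ((N:ℝ) + 1)
        * ENNReal.ofReal (l * ρ ^ d)) := by gcongr
    _ = ENNReal.ofReal (a ^ 2 * ((CA.toReal + 1) * ((N:ℝ) + 1) * (l * ρ ^ d))) := by
        rw [← ENNReal.ofReal_mul (by positivity), ← ENNReal.ofReal_mul (by positivity),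
          ← ENNReal.ofReal_mul (by positivity)]
    _ = _ := by
        congr 1
        have e4 : a ^ 2 = 4 * Cc ^ 2 * ((C1 + 1) ^ (2 - 2 * θ) * ((B ^ d) ^ (2 - 2 * θ)
            * M ^ (2 * θ))) := by
          have e5 : ((C1 + 1) * B ^ d) ^ (2 - 2 * θ) = (C1 + 1) ^ (2 - 2 * θ)
              * (B ^ d) ^ (2 - 2 * θ) := Real.mul_rpow (by positivity) (by positivity)
          have e6 : (((C1 + 1) * B ^ d) ^ (1 - θ)) ^ 2 = ((C1 + 1) * B ^ d) ^ (2 - 2 * θ) := by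
            rw [← Real.rpow_natCast, ← Real.rpow_mul (by positivity)]
            congr 1
            push_cast
            ring
          have e7 : (M ^ θ) ^ 2 = M ^ (2 * θ) := by
            rw [← Real.rpow_natCast, ← Real.rpow_mul (by positivity)]
            congr 1
            push_cast
            ring
          rw [ha, mul_pow, mul_pow, mul_pow, e6, e7, e5]
          ring
        rw [e4]
        ring

end Pool.Agent.K3h46.TMC
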